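import Pool.Agent.H546.DatV
import Pool.Agent.H546.Sign2
import Pool.Agent.H546.Iso
import Pool.Agent.H546.QCM

set_option autoImplicit false

/-!
# Isogenies of odd degree of the quartic family with a given point in the kernel
-/

namespace Pool.Agent.H501

open Polynomial
open Pool.Agent.H546

variable {O K k : Type*} [CommRing O] [IsDomain O] [Field K] [Algebra O K] [Field k]
  (S : DV O K k)

/-- an isogeny of odd degree from its kernel polynomial, with a point of the kernel -/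
theorem datK_of_uh {z z' m κ R : O} {u h A B : O[X]} {e : ℕ} (h3 : (3 : k) ≠ 0)
    (hid : C κ * (X ^ 2 - 4 * X + C (4 * z)) * (u * h + 2 * X * (derivative u * h - u * derivative h)) ^ 2 =
      C m ^ 2 * (X ^ 2 * u ^ 4 - 4 * C κ * X * (u ^ 2 * h ^ 2) + C (4 * z') * C κ ^ 2 * h ^ 4))
    (hu : u.natDegree ≤ e) (hh : h.natDegree ≤ e) (hlc : S.red (u.coeff e) ≠ 0) (hκ : S.red κ ≠ 0)
    (bez : A * u + B * h = C R) (hR : S.red R ≠ 0) (h0 : S.red (h.coeff 0) ≠ 0) {VT : O} (hT : h.eval VT = 0) :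
    ∃ n d : O[X], DatE S (cub (qa z) (qb z)) (qa z') (qb z') m (2 * e + 1) n d ∧ d.eval (9 * VT - 12) = 0 ∧
      n.eval (9 * VT - 12) ≠ 0 := by
  have h9 : S.red (9 : O) ≠ 0 := by
    rw [map_ofNat]
    have : (9 : k) = 3 * 3 := by norm_num
    rw [this]; exact mul_ne_zero h3 h3
  have h9k : (9 : k) ≠ 0 := by rwa [map_ofNat] at h9
  have ne0 : ∀ {x : O}, S.red x ≠ 0 → x ≠ 0 := by rintro x hx rfl; exact hx (map_zero _)
  have ne0K : ∀ {x : O}, S.red x ≠ 0 → algebraMap O K x ≠ 0 := by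
    intro x hx h0; exact ne0 hx (S.inj (by rw [h0, map_zero]))
  have h9K : (9 : K) ≠ 0 := by have := ne0K h9; rwa [map_ofNat] at this
  obtain ⟨c, hc⟩ := (S.unit_of_red h9).exists_left_inv
  have hcr : S.red c ≠ 0 := by
    intro h0
    have := congrArg S.red hc
    rw [map_mul, h0, zero_mul, map_one] at this
    exact zero_ne_one this
  have hc9 : C c * 9 = (1 : O[X]) := by
    have : (9 : O[X]) = C 9 := (map_ofNat C 9).symm
    rw [this, ← C_mul, hc, C_1]
  have ecoef := hlc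
  have hud : u.natDegree = e := le_antisymm hu (le_natDegree_of_ne_zero (ne0 hlc))
  have hu0 : u ≠ 0 := by rintro rfl; rw [coeff_zero, map_zero] at hlc; exact hlc rfl
  have hh0 : h ≠ 0 := by rintro rfl; rw [coeff_zero, map_zero] at h0; exact h0 rfl
  set L : O[X] := C c * (X + 12) with hL
  have hLd : L.natDegree = 1 := by
    rw [hL, natDegree_C_mul (ne0 hcr)]
    have : (X + 12 : O[X]) = X + C 12 := by rw [map_ofNat]
    rw [this, natDegree_X_add_C]
  have hLcomp : (9 * X - 12 : O[X]).comp L = X := by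
    simp only [sub_comp, mul_comp, ofNat_comp, X_comp, hL]
    linear_combination (X + 12) * hc9
  set N : O[X] := X * u ^ 2 with hN
  set D : O[X] := C κ * h ^ 2 with hD
  have hD0 : D ≠ 0 := mul_ne_zero (C_ne_zero.mpr (ne0 hκ)) (pow_ne_zero 2 hh0)
  have hNd : N.natDegree = 2 * e + 1 := by
    rw [hN, natDegree_mul X_ne_zero (pow_ne_zero 2 hu0), natDegree_X, natDegree_pow, hud]; ring
  have hDd : D.natDegree ≤ 2 * e := by
    rw [hD]
    refine (natDegree_C_mul_le _ _).trans ?_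
    rw [natDegree_pow]; omega
  have h12D : (12 * D).natDegree ≤ 2 * e := by
    have : (12 : O[X]) * D = C 12 * D := by rw [map_ofNat]
    rw [this]; exact (natDegree_C_mul_le _ _).trans hDd
  have h9O : (9 : O) ≠ 0 := ne0 h9
  have h9N : (9 * N).natDegree = 2 * e + 1 := by
    have : (9 : O[X]) * N = C 9 * N := by rw [map_ofNat]
    rw [this, natDegree_C_mul h9O, hNd]
  have hnd0 : (9 * N - 12 * D).natDegree = 2 * e + 1 := by
    rw [natDegree_sub_eq_left_of_natDegree_lt, h9N]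
    rw [h9N]; omega
  have hwr : wr N D = C κ * (u * h) * (u * h + 2 * X * (derivative u * h - u * derivative h)) := by
    rw [hN, hD]
    simp only [wr, derivative_mul, derivative_X, derivative_C, derivative_pow, Nat.cast_ofNat, map_ofNat]
    push_cast
    ring
  have hode : gv z * wr N D ^ 2 = C m ^ 2 * tv z' N D := by
    rw [hwr, hN, hD, tv, gv]
    linear_combination (X * C κ * (u * h) ^ 2) * hid
  set n := (9 * N - 12 * D).comp L with hn
  set d := D.comp L with hd
  have hdL : derivative L = C c := by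
    rw [hL]; simp [derivative_mul]
  have hwnd : wr n d = (wr N D).comp L := by
    rw [hn, hd, wr_compL, hdL]
    have e2 : wr (9 * N - 12 * D) D = 9 * wr N D := by
      simp only [wr, derivative_sub, derivative_mul, derivative_ofNat]; ring
    rw [e2, mul_comp, ofNat_comp]
    linear_combination ((wr N D).comp L) * hc9
  have hcub : cub (qa z) (qb z) = 729 * (gv z).comp L := by
    have := congrArg (fun P => P.comp L) (cub_compv z)
    rw [comp_assoc, hLcomp, comp_X, mul_comp, ofNat_comp] at this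
    exact this
  have htgt : tgt (qa z') (qb z') n d = 729 * (tv z' N D).comp L := by
    have : (tgt (qa z') (qb z') (9 * N - 12 * D) D).comp L = 729 * (tv z' N D).comp L := by
      rw [tgt_tv, mul_comp, ofNat_comp]; rfl
    rw [← this, hn, hd]
    simp only [tgt, mul_comp, add_comp, pow_comp, C_comp]
  have hndeg : n.natDegree = 2 * e + 1 := by rw [hn, natDegree_comp, hLd, mul_one, hnd0]
  have hLT : L.eval (9 * VT - 12) = VT := by
    have := congrArg (fun P => P.eval VT) hc9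
    simp only [eval_mul, eval_C, eval_ofNat, eval_one] at this
    rw [hL]
    simp only [eval_mul, eval_C, eval_add, eval_X, eval_ofNat]
    linear_combination VT * this
  have hVT0 : VT ≠ 0 := by
    rintro rfl
    rw [← coeff_zero_eq_eval_zero] at hT
    rw [hT, map_zero] at h0
    exact h0 rfl
  have huT : u.eval VT ≠ 0 := by
    intro h1
    have := congrArg (fun P => P.eval VT) bez
    simp only [eval_add, eval_mul, eval_C, h1, hT, mul_zero, add_zero] at this
    rw [← this, map_zero] at hR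
    exact hR rfl
  refine ⟨n, d, ⟨?_, ?_, ?_, hndeg, ?_, ?_, ?_⟩, ?_, ?_⟩
  · rw [hcub, htgt, hwnd]
    have := congrArg (fun P => P.comp L) hode
    simp only [mul_comp, pow_comp, C_comp] at this
    linear_combination 729 * this
  · intro h1
    rw [hd, comp_eq_zero_iff] at h1
    rcases h1 with h1 | h1
    · exact hD0 h1
    · have h2 := congrArg natDegree h1.2
      rw [hLd, natDegree_C] at h2
      exact one_ne_zero h2
  · rw [hndeg, hd, natDegree_comp, hLd, mul_one]; omega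
  · rw [hn, hd, hN, hD, hL, v_mapn, v_mapd]
    refine v_cop (ne0K hκ) h9K (bez_cop _ bez (ne0K hR)) ?_
    rw [coeff_map]; exact ne0K h0
  · rw [hn, hd, hN, hD, hL, v_mapn, v_mapd]
    refine v_cop hκ h9k (bez_cop _ bez hR) ?_
    rw [coeff_map]; exact h0
  · rw [hndeg, hn, hN, hD, hL, v_mapn]
    have huk : (u.map S.red).natDegree = e := by
      refine le_antisymm (natDegree_map_le.trans hu) (le_natDegree_of_ne_zero ?_)
      rw [coeff_map]; exact hlc
    have huk0 : u.map S.red ≠ 0 := by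
      intro h1
      have : (u.map S.red).coeff e = 0 := by rw [h1, coeff_zero]
      rw [coeff_map] at this
      exact hlc this
    have hLk : (C (S.red c) * (X + 12) : k[X]).natDegree = 1 := by
      rw [natDegree_C_mul hcr]
      have : (X + 12 : k[X]) = X + C 12 := by rw [map_ofNat]
      rw [this, natDegree_X_add_C]
    have hNk : (9 * (X * (u.map S.red) ^ 2)).natDegree = 2 * e + 1 := by
      have : (9 : k[X]) * (X * (u.map S.red) ^ 2) = C 9 * (X * (u.map S.red) ^ 2) := by rw [map_ofNat]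
      rw [this, natDegree_C_mul h9k, natDegree_mul X_ne_zero (pow_ne_zero 2 huk0), natDegree_X, natDegree_pow, huk]
      ring
    have hDk : (12 * (C (S.red κ) * (h.map S.red) ^ 2)).natDegree ≤ 2 * e := by
      have : (12 : k[X]) * (C (S.red κ) * (h.map S.red) ^ 2) = C 12 * (C (S.red κ) * (h.map S.red) ^ 2) := by
        rw [map_ofNat]
      rw [this]
      refine (natDegree_C_mul_le _ _).trans ((natDegree_C_mul_le _ _).trans ?_)
      rw [natDegree_pow]
      have := (natDegree_map_le (f := S.red) (p := h)).trans hh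
      omega
    rw [natDegree_comp, hLk, mul_one, natDegree_sub_eq_left_of_natDegree_lt, hNk]
    rw [hNk]; omega
  · rw [hd, eval_comp, hLT, hD, eval_mul, eval_pow, hT]
    simp
  · rw [hn, eval_comp, hLT, hN, hD]
    simp only [eval_sub, eval_mul, eval_pow, eval_X, eval_C, eval_ofNat, hT]
    have : (9 : O) * (VT * u.eval VT ^ 2) ≠ 0 := mul_ne_zero (ne0 h9) (mul_ne_zero hVT0 (pow_ne_zero 2 huT))
    intro h1
    apply this
    linear_combination h1

/-- an isogeny from the list data, with a point of the kernel -/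
theorem datK_of_iso {s r : O} {D E : Int} {κ m2 zl zl' c1 c2 : Q4} {dz R : Int}
    {u u1 h h1 u2 h2 u4 uh2 h4 a0 a1 a2 W W2 T1 S1 T2 A B : List Q4}
    (ok : IsoOk D E κ m2 zl zl' c1 c2 dz R u u1 h h1 u2 h2 u4 uh2 h4 a0 a1 a2 W W2 T1 S1 T2 A B)
    (hs : s ^ 2 = D) (hr : r ^ 2 = E) {z z' m : O} {e : ℕ} (h3 : (3 : k) ≠ 0)
    (hz : (dz : O) * (4 * z) = e4 s r zl) (hz' : (dz : O) * (4 * z') = e4 s r zl')
    (hm : m ^ 2 = e4 s r m2) (hdz : S.red (dz : O) ≠ 0) (hul : u.length ≤ e + 1) (hhl : h.length ≤ e + 1)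
    (hlc : S.red (e4 s r (u.getD e Q4.z0)) ≠ 0) (hκ : S.red (e4 s r κ) ≠ 0)
    (hR : S.red (R : O) ≠ 0) (h0 : S.red (e4 s r (h.getD 0 Q4.z0)) ≠ 0)
    {lt hq : List Q4} {lam : Int} (okT : leq (lmul D E lt hq) (lsm D E (qi lam) h) = true) {VT : O}
    (hT : (ev s r lt).eval VT = 0) (hlam : S.red (lam : O) ≠ 0) :
    ∃ n d : O[X], DatE S (cub (qa z) (qb z)) (qa z') (qb z') m (2 * e + 1) n d ∧ d.eval (9 * VT - 12) = 0 ∧
      n.eval (9 * VT - 12) ≠ 0 := by
  have hHT : (ev s r h).eval VT = 0 := by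
    have e1 := congrArg (fun P => P.eval VT) (ev_eq s r _ _ okT)
    simp only [ev_mul hs hr, ev_sm hs hr, e4_qi, eval_mul, eval_C, hT, zero_mul] at e1
    rcases mul_eq_zero.mp e1.symm with h1 | h1
    · rw [h1, map_zero] at hlam; exact absurd rfl hlam
    · exact h1
  have hdz0 : (dz : O) ≠ 0 := by intro h1; rw [h1, map_zero] at hdz; exact hdz rfl
  have e1 := ev_eq s r _ _ ok.k1
  have e2 := ev_eq s r _ _ ok.k2
  have e3 := ev_eq s r _ _ ok.k3
  have e4' := ev_eq s r _ _ ok.k4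
  have e5 := ev_eq s r _ _ ok.k5
  have e6 := ev_eq s r _ _ ok.k6
  have e7 := ev_eq s r _ _ ok.k7
  have e8 := ev_eq s r _ _ ok.k8
  have e9 := ev_eq s r _ _ ok.k9
  have e10 := ev_eq s r _ _ ok.k10
  have e11 := ev_eq s r _ _ ok.k11
  have e12 := ev_eq s r _ _ ok.k12
  have e13 := ev_eq s r _ _ ok.k13
  have e14 := ev_eq s r _ _ ok.k14
  have e15 := ev_eq s r _ _ ok.k15
  have e16 := ev_eq s r _ _ ok.k16
  have e17 := ev_eq s r _ _ ok.k17
  have e18 := congrArg (e4 s r) (Q4.eq_of_beq ok.k18)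
  have e19 := congrArg (e4 s r) (Q4.eq_of_beq ok.k19)
  simp only [ev_add, ev_der, ev_mul hs hr, ev_sm hs hr, ev, e4_z0, e4_q2, e4_qm2, e4_qi, C_0,
    zero_add, mul_zero, add_zero] at e1 e2 e3 e4' e5 e6 e7 e8 e9 e10 e11 e12 e13 e14 e15 e16 e17
  simp only [e4_mul hs hr, e4_qi] at e18 e19
  set U := ev s r u with hU
  set H := ev s r h with hH
  have hzC : C (dz : O) * C (4 * z) = C (e4 s r zl) := by rw [← C_mul, hz]
  have hzC' : C (dz : O) * C (4 * z') = C (e4 s r zl') := by rw [← C_mul, hz']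
  have hmC : (C m : O[X]) ^ 2 = C (e4 s r m2) := by rw [← C_pow, hm]
  have h18 : C (e4 s r c1) = -4 * C (dz : O) * C (e4 s r κ) := by
    rw [e18]; push_cast
    simp only [C_mul, C_neg, map_ofNat]
  have h19 : C (e4 s r c2) = C (dz : O) * C (4 * z') * C (e4 s r κ) ^ 2 := by
    rw [e19, C_mul, C_mul, hzC']; ring
  have hW : ev s r W = U * H + 2 * X * (derivative U * H - U * derivative H) := by
    rw [← e11, ← e8, ← e9, ← e10, ← e1, ← e2]
    simp only [map_ofNat, C_neg]
    ring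
  have c4 : C (((-4 * dz : ℤ)) : O) = -4 * C (dz : O) := by
    push_cast; simp only [C_mul, C_neg, map_ofNat]
  refine datK_of_uh S (κ := e4 s r κ) (R := (R : O)) (u := U) (h := H) (A := ev s r A) (B := ev s r B) h3 ?_
    (ev_deg s r u e hul) (ev_deg s r h e hhl) ?_ hκ ?_ hR ?_ hHT
  · have hdC : (C (dz : O) : O[X]) ≠ 0 := C_ne_zero.mpr hdz0
    apply mul_left_cancel₀ hdC
    rw [hmC, ← hW]
    have t1 : ev s r T1 = (C (dz : O) * (X ^ 2 - 4 * X + C (4 * z))) * ev s r W ^ 2 := by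
      rw [← e13, ← e12, c4, ← hzC]; ring
    have s1 : ev s r S1 = C (dz : O) * (X ^ 2 * U ^ 4 - 4 * C (e4 s r κ) * X * (U ^ 2 * H ^ 2) +
        C (4 * z') * C (e4 s r κ) ^ 2 * H ^ 4) := by
      rw [← e14, ← e5, ← e6, ← e7, ← e3, ← e4', h18, h19]; ring
    have t2 := e15.trans e16.symm
    rw [t1, s1] at t2
    linear_combination t2
  · rw [hU, ev_coeff]; exact hlc
  · exact e17
  · rw [hH, ev_coeff]; exact h0


/-- an isogeny from the list data, with a point of the kernel, all the conditions being integral -/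
theorem datK_of_isoN {p : ℕ} [hp : Fact p.Prime] [CharP k p]
    {s r : O} {D E : Int} {κ m2 zl zl' c1 c2 κi h0i : Q4} {dz R L Nκ Nh : Int}
    {u u1 h h1 u2 h2 u4 uh2 h4 a0 a1 a2 W W2 T1 S1 T2 A B : List Q4}
    (ok : IsoOk D E κ m2 zl zl' c1 c2 dz R u u1 h h1 u2 h2 u4 uh2 h4 a0 a1 a2 W W2 T1 S1 T2 A B)
    (hs : s ^ 2 = D) (hr : r ^ 2 = E) {z z' m : O} {e : ℕ} (hp3 : p ≠ 3)
    (hz : (dz : O) * (4 * z) = e4 s r zl) (hz' : (dz : O) * (4 * z') = e4 s r zl')
    (hm : m ^ 2 = e4 s r m2) (hul : u.length ≤ e + 1) (hhl : h.length ≤ e + 1)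
    (kL : (u.getD e Q4.z0).beq (qi L) = true) (kκ : (Q4.mul D E κ κi).beq (qi Nκ) = true)
    (kh : (Q4.mul D E (h.getD 0 Q4.z0) h0i).beq (qi Nh) = true)
    (hdz : ¬ (p : ℤ) ∣ dz) (hL : ¬ (p : ℤ) ∣ L) (hκ : ¬ (p : ℤ) ∣ Nκ) (hh : ¬ (p : ℤ) ∣ Nh)
    (hR : ¬ (p : ℤ) ∣ R) {lt hq : List Q4} {lam : Int}
    (okT : leq (lmul D E lt hq) (lsm D E (qi lam) h) = true) {VT : O}
    (hT : (ev s r lt).eval VT = 0) (hlam : ¬ (p : ℤ) ∣ lam) :
    ∃ n d : O[X], DatE S (cub (qa z) (qb z)) (qa z') (qb z') m (2 * e + 1) n d ∧ d.eval (9 * VT - 12) = 0 ∧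
      n.eval (9 * VT - 12) ≠ 0 := by
  have h3 : (3 : k) ≠ 0 := by
    have := S.three_ne (p := p) hp3
    rwa [map_ofNat] at this
  refine datK_of_iso S ok hs hr h3 hz hz' hm (S.int_ne hdz) hul hhl ?_ ?_ (S.int_ne hR) ?_ okT hT (S.int_ne hlam)
  · rw [Q4.eq_of_beq kL, e4_qi]; exact S.int_ne hL
  · have e1 := congrArg (e4 s r) (Q4.eq_of_beq kκ)
    rw [e4_mul hs hr, e4_qi] at e1
    exact S.ne_mul e1 hκ
  · have e1 := congrArg (e4 s r) (Q4.eq_of_beq kh)
    rw [e4_mul hs hr, e4_qi] at e1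
    exact S.ne_mul e1 hh

end Pool.Agent.H501
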