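import Pool.Agent.H501.K2.Main60
import Pool.Agent.H546.WO

set_option autoImplicit false

/-!
# From the Witt vectors of an algebraic closure to the `p`-adic integers
-/

namespace Pool.Agent.H501

open Pool.Agent.H546 (WO kb KO SW SW_q lg lg_cast)

variable (p : ℕ) [hp : Fact p.Prime]

/-- the embedding of `ℤ_p` into the Witt vectors -/
noncomputable def emb : ℤ_[p] →+* WO p :=
  (WittVector.map (algebraMap (ZMod p) (kb p))).comp (WittVector.fromPadicInt p)

variable {p}

theorem hom_val (f : ℤ_[p] →+* kb p) (a : ℤ_[p]) : f a = algebraMap (ZMod p) (kb p) (PadicInt.toZMod a) := by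
  have h := PadicInt.toZMod_spec a
  rw [PadicInt.maximalIdeal_eq_span_p, Ideal.mem_span_singleton] at h
  obtain ⟨b, hb⟩ := h
  have e : (ZMod.cast (PadicInt.toZMod a) : ℤ_[p]) = (((PadicInt.toZMod a).val : ℕ) : ℤ_[p]) := by
    rw [ZMod.natCast_val]
  have ha : a = (((PadicInt.toZMod a).val : ℕ) : ℤ_[p]) + p * b := by
    rw [← e, ← hb]; ring
  have h1 : f a = (((PadicInt.toZMod a).val : ℕ) : kb p) := by
    conv_lhs => rw [ha]
    rw [map_add, map_mul, map_natCast, map_natCast, CharP.cast_eq_zero (kb p) p, zero_mul, add_zero]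
  rw [h1]
  conv_rhs => rw [← ZMod.natCast_zmod_val (PadicInt.toZMod a), map_natCast]

theorem red_emb (a : ℤ_[p]) : (SW p).red (emb p a) = algebraMap (ZMod p) (kb p) (PadicInt.toZMod a) :=
  hom_val ((SW p).red.comp (emb p)) a

theorem dvd_of_emb {a : ℤ_[p]} (h : (p : WO p) ^ 2 ∣ emb p a) : (p : ℤ_[p]) ^ 2 ∣ a := by
  rcases eq_or_ne a 0 with rfl | ha
  · exact dvd_zero _
  have hs := PadicInt.unitCoeff_spec ha
  set v := a.valuation with hv
  set u := PadicInt.unitCoeff ha with hu
  rcases le_or_gt 2 v with h2 | h2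
  · rw [hs]
    exact (pow_dvd_pow _ h2).mul_left _
  · exfalso
    have e : emb p a = (p : WO p) ^ v * emb p (u : ℤ_[p]) := by
      conv_lhs => rw [hs]
      rw [map_mul, map_pow, map_natCast, mul_comm]
    have hp0 : (p : WO p) ^ v ≠ 0 := pow_ne_zero _ (WittVector.p_nonzero p (kb p))
    have e2 : (p : WO p) ^ 2 = (p : WO p) ^ v * (p : WO p) ^ (2 - v) := by
      rw [← pow_add]; congr 1; omega
    rw [e, e2] at h
    have h3 := (mul_dvd_mul_iff_left hp0).mp h
    have h4 : (p : WO p) ∣ emb p (u : ℤ_[p]) := (dvd_pow_self _ (by omega)).trans h3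
    have hunit : IsUnit (emb p (u : ℤ_[p])) := u.isUnit.map _
    have h5 : (SW p).red (emb p (u : ℤ_[p])) = 0 := ((SW p).red_iff _).mpr h4
    exact (hunit.map (SW p).red).ne_zero h5

/-- an integer prime to `p` is invertible -/
theorem unit_of {a : ℤ_[p]} (h : PadicInt.toZMod a ≠ 0) : IsUnit a := by
  by_contra h1
  apply h
  have : a ∈ IsLocalRing.maximalIdeal ℤ_[p] := by
    rw [IsLocalRing.mem_maximalIdeal]; exact h1
  rw [← PadicInt.ker_toZMod] at this
  exact this

/-- **The congruence over `ℤ_p`.** -/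
theorem fin60 (hp15 : p % 15 = 1 ∨ p % 15 = 4) {x y : ℤ} (hxy : (p : ℤ) = x ^ 2 + 15 * y ^ 2) {s t h u : ℤ_[p]}
    (hs : s ^ 2 = -15) (ht : t ^ 2 = -3) (hh : 2 * h = 1) (hu : 2 * x * u = p) :
    (p : ℤ_[p]) ^ 2 ∣ lg ((p - 1) / 2) (h * (1 - (7 * s + 16 * t))) -
      (quadraticChar (ZMod p) (PadicInt.toZMod (-s)) : ℤ_[p]) * jacobiSym x 15 * (2 * x - u) := by
  have hpp := hp.out
  have hp2 : p ≠ 2 := by rintro rfl; norm_num at hp15
  have hp3 : p ≠ 3 := by rintro rfl; norm_num at hp15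
  have hp5 : p ≠ 5 := by rintro rfl; norm_num at hp15
  have hsz : PadicInt.toZMod (-s) ≠ 0 := by
    intro h0
    rw [map_neg, neg_eq_zero] at h0
    have h1 := congrArg PadicInt.toZMod hs
    rw [map_pow, h0, map_neg, map_ofNat] at h1
    have h15 : ((15 : ℕ) : ZMod p) = 0 := by
      push_cast; linear_combination h1
    rw [ZMod.natCast_eq_zero_iff] at h15
    have h16 : p ∣ 3 * 5 := by simpa using h15
    rcases hpp.dvd_mul.mp h16 with h2 | h2
    · exact hp3 ((Nat.prime_dvd_prime_iff_eq hpp Nat.prime_three).mp h2)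
    · exact hp5 ((Nat.prime_dvd_prime_iff_eq hpp Nat.prime_five).mp h2)
  have hχ := quadraticChar_dichotomy hsz
  set χ : ℤ := quadraticChar (ZMod p) (PadicInt.toZMod (-s)) with hχd
  have frobz : ∀ a : ZMod p, algebraMap (ZMod p) (kb p) a ^ p = algebraMap (ZMod p) (kb p) a := by
    intro a
    rw [← map_pow, ZMod.pow_card]
  have hχs : (χ : kb p) = (-(SW p).red (emb p s)) ^ ((p - 1) / 2) := by
    have hrc : ringChar (ZMod p) ≠ 2 := by rwa [ZMod.ringChar_zmod_n]
    have h1 := quadraticChar_eq_pow_of_char_ne_two' hrc (PadicInt.toZMod (-s))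
    rw [ZMod.card, ← hχd] at h1
    have h2 := congrArg (algebraMap (ZMod p) (kb p)) h1
    rw [map_intCast, map_pow, ← red_emb, map_neg, map_neg] at h2
    have h3 : p / 2 = (p - 1) / 2 := by
      have := hpp.eq_two_or_odd
      omega
    rw [h3] at h2
    exact h2
  have key := main60 (SW p) (p := p) hp15 (SW_q p) (s := emb p s) (t := emb p t) (h := emb p h)
    (by rw [← map_pow, hs, map_neg, map_ofNat]) (by rw [← map_pow, ht, map_neg, map_ofNat])
    (by rw [red_emb]; exact frobz _) (by rw [red_emb]; exact frobz _)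
    (by rw [← map_one (emb p), ← hh, map_mul, map_ofNat]) hxy (u := emb p u)
    (by rw [← map_natCast (emb p) p, ← hu, map_mul, map_mul, map_ofNat, map_intCast]) hχ hχs
  apply dvd_of_emb
  have e : emb p (lg ((p - 1) / 2) (h * (1 - (7 * s + 16 * t))) - (χ : ℤ_[p]) * jacobiSym x 15 * (2 * x - u)) =
      lg ((p - 1) / 2) (emb p h * (1 - (7 * emb p s + 16 * emb p t))) -
        χ * jacobiSym x 15 * (2 * x - emb p u) := by
    rw [map_sub, map_mul, map_mul, map_intCast, map_intCast, map_sub, map_mul, map_ofNat, map_intCast, lg_cast]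
    simp only [map_mul, map_sub, map_add, map_one, map_ofNat]
  rw [e]
  exact key

end Pool.Agent.H501
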