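import Pool.Agent.H546.Ker

set_option autoImplicit false

/-!
# Points reducing to a point of order three at a place
-/

namespace Pool.Agent.H501

open Polynomial WeierstrassCurve WeierstrassCurve.Affine WithZero
open Pool.Agent.Q267.MW (SW io io_inj io_ne eqn negY_SW add_quad two_ne_K)
open Pool.Agent.H546 (Pt Ker TWf vc_unit ker_of_close ker_add ker_zsmul ker_sub)

variable {F : Type*} [Field F] (v : Valuation (RatFunc F) ℤᵐ⁰) (hv : ∀ c : F, v (io (C c)) ≤ 1)

include hv in
open Classical in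
/-- a point reducing to a point of order three with abscissa `e` -/
theorem ker_three {f : F[X]} {a b e : F} (he : 3 * e ^ 4 + 6 * a * e ^ 2 + 12 * b * e - a ^ 2 = 0)
    (hf0 : f ≠ 0) (h2 : (2 : F) ≠ 0) (hvf : v (io f) = 1)
    {P : (TWf f a b).Point} {X Y : RatFunc F} (h : Pt P X Y)
    (hX : v (X - io (C e)) < 1) (hY : v Y = 1) : Ker v ((3 : ℤ) • P) := by
  have hf := io_ne hf0
  have h2K := two_ne_K h2
  have E := h.eqn hf0
  have vv2 : v 2 = 1 := by
    have : (2 : RatFunc F) = io (C 2) := by rw [map_ofNat, map_ofNat]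
    rw [this]; exact vc_unit v hv h2
  have vn : ∀ n : ℕ, v (n : RatFunc F) ≤ 1 := by
    intro n
    have : (n : RatFunc F) = io (C (n : F)) := by rw [map_natCast, map_natCast]
    rw [this]; exact hv _
  have vv3 : v 3 ≤ 1 := by exact_mod_cast vn 3
  have vX : v X ≤ 1 := by
    have : X = (X - io (C e)) + io (C e) := by ring
    rw [this]
    exact v.map_add_le hX.le (hv e)
  have hY0 : Y ≠ 0 := by intro h0; rw [h0, map_zero] at hY; exact zero_ne_one hY
  set l := (3 * X ^ 2 + io (C a)) / (2 * io f * Y) with hl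
  have hd := h.dbl hf0 h2 hY0
  rw [← hl] at hd
  have vl : v l ≤ 1 := by
    rw [hl, map_div₀, map_mul, map_mul, vv2, hvf, hY, one_mul, one_mul, div_one]
    refine v.map_add_le ?_ (hv _)
    rw [map_mul, map_pow]
    exact mul_le_one' vv3 (pow_le_one' vX 2)
  have he' : 3 * io (C e) ^ 4 + 6 * io (C a) * io (C e) ^ 2 + 12 * io (C b) * io (C e) - io (C a) ^ 2 = 0 := by
    have := congrArg (fun x => io (C x)) he
    simp only [map_add, map_sub, map_mul, map_pow, map_ofNat, map_zero] at this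
    exact this
  have hX3 : v ((io f * l ^ 2 - 2 * X) - X) < 1 := by
    have e' : (io f * l ^ 2 - 2 * X) - X = (X - io (C e)) * (-(3 * X ^ 3 + io (C (3 * e)) * X ^ 2 +
        io (C (3 * e ^ 2 + 6 * a)) * X + io (C (3 * e ^ 3 + 6 * a * e + 12 * b)))) / (2 ^ 2 * io f * Y ^ 2) := by
      have h4K : (2 : RatFunc F) ^ 2 ≠ 0 := pow_ne_zero 2 h2K
      have hl' : l * (2 * io f * Y) = 3 * X ^ 2 + io (C a) := by
        rw [hl, div_mul_cancel₀]
        exact mul_ne_zero (mul_ne_zero h2K hf) hY0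
      rw [eq_div_iff (mul_ne_zero (mul_ne_zero h4K hf) (pow_ne_zero 2 hY0))]
      simp only [C_add, C_mul, C_pow, map_add, map_mul, map_pow, map_ofNat]
      linear_combination (l * (2 * io f * Y) + (3 * X ^ 2 + io (C a))) * hl' - 12 * X * E - he'
    rw [e', map_div₀, map_mul v (X - io (C e)), map_mul v (2 ^ 2 * io f), map_mul v (2 ^ 2), map_pow v 2, map_pow v Y,
      vv2, hvf, hY]
    simp only [one_pow, one_mul, div_one]
    have hc : v (-(3 * X ^ 3 + io (C (3 * e)) * X ^ 2 +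
        io (C (3 * e ^ 2 + 6 * a)) * X + io (C (3 * e ^ 3 + 6 * a * e + 12 * b)))) ≤ 1 := by
      rw [Valuation.map_neg]
      refine v.map_add_le (v.map_add_le (v.map_add_le ?_ ?_) ?_) (hv _)
      · rw [map_mul, map_pow]; exact mul_le_one' vv3 (pow_le_one' vX 3)
      · rw [map_mul, map_pow]; exact mul_le_one' (hv _) (pow_le_one' vX 2)
      · rw [map_mul]; exact mul_le_one' (hv _) vX
    calc v (X - io (C e)) * v (-(3 * X ^ 3 + io (C (3 * e)) * X ^ 2 +
        io (C (3 * e ^ 2 + 6 * a)) * X + io (C (3 * e ^ 3 + 6 * a * e + 12 * b))))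
        ≤ v (X - io (C e)) * 1 := mul_le_mul' le_rfl hc
      _ = v (X - io (C e)) := mul_one _
      _ < 1 := hX
  have hX3' : v (io f * l ^ 2 - 2 * X) ≤ 1 := by
    have : io f * l ^ 2 - 2 * X = ((io f * l ^ 2 - 2 * X) - X) + X := by ring
    rw [this]
    exact v.map_add_le hX3.le vX
  have hY3 : v (-(l * ((io f * l ^ 2 - 2 * X) - X) + Y) - Y) = 1 := by
    have e : -(l * ((io f * l ^ 2 - 2 * X) - X) + Y) - Y = -(2 * Y + l * ((io f * l ^ 2 - 2 * X) - X)) := by ring
    rw [e, Valuation.map_neg, v.map_add_eq_of_lt_left]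
    · rw [map_mul, vv2, hY, one_mul]
    · rw [map_mul, map_mul, vv2, hY, one_mul]
      calc v l * v ((io f * l ^ 2 - 2 * X) - X) ≤ 1 * v ((io f * l ^ 2 - 2 * X) - X) := mul_le_mul' vl le_rfl
        _ = v ((io f * l ^ 2 - 2 * X) - X) := one_mul _
        _ < 1 := hX3
  have e3 : (3 : ℤ) • P = (P + P) + P := by
    have : (3 : ℤ) = 1 + 1 + 1 := by norm_num
    rw [this, add_zsmul, add_zsmul, one_zsmul]
  rw [e3]
  exact ker_of_close v hf0 hvf hd h hX3' vX hX3 hY3

include hv in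
open Classical in
/-- **The second coordinate of a combination at the place.** -/
theorem ker_comb {f : F[X]} {a b e : F} (he : 3 * e ^ 4 + 6 * a * e ^ 2 + 12 * b * e - a ^ 2 = 0)
    (hf0 : f ≠ 0) (h2 : (2 : F) ≠ 0) (hvf : v (io f) = 1)
    {P Q : (TWf f a b).Point} {X Y X' Y' : RatFunc F} (h : Pt P X Y)
    (hX : v (X - io (C e)) < 1) (hY : v Y = 1) (hQ : Ker v Q) (r s ε : ℤ) (hε : ε = 1 ∨ ε = -1) (hr : (3 : ℤ) ∣ r - ε)
    (h' : Pt (r • P + s • Q) X' Y') (hX' : v X' ≤ 1) (hY' : v Y' = 1) : v (Y' - (ε : RatFunc F) * Y) < 1 := by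
  have vX : v X ≤ 1 := by
    have : X = (X - io (C e)) + io (C e) := by ring
    rw [this]
    exact v.map_add_le hX.le (hv e)
  obtain ⟨c, hc⟩ := hr
  have hk3 := ker_three v hv he hf0 h2 hvf h hX hY
  have hk : Ker v ((r • P + s • Q) - ε • P) := by
    have e : (r • P + s • Q) - ε • P = c • ((3 : ℤ) • P) + s • Q := by
      have : r = ε + c * 3 := by linarith
      rw [this, add_zsmul, mul_zsmul]
      abel
    rw [e]
    exact ker_add v hv hf0 h2 (ker_zsmul v hv hf0 h2 hk3 c) (ker_zsmul v hv hf0 h2 hQ s)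
  rcases hε with rfl | rfl
  · rw [one_zsmul] at hk
    have := ker_sub v hv hf0 h2 hvf h' h hX' vX hY' hY hk
    simpa using this
  · rw [neg_zsmul, one_zsmul] at hk
    have hYn : v (-Y) = 1 := by rw [Valuation.map_neg]; exact hY
    have := ker_sub v hv hf0 h2 hvf h' h.neg hX' vX hY' hYn hk
    simpa using this

end Pool.Agent.H501
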