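import Pool.Agent.H501.K2.Refl
import Pool.Agent.H546.QKey

set_option autoImplicit false

/-!
# The unit root modulo `p²` on a curve `y² = x³ - 2c x² + x`: a Legendre polynomial
-/

namespace Pool.Agent.H501

open PowerSeries
open Pool.Agent.H546 (wr DV lg lgs lgs_sq lgs_map exists_cat)

section ser

variable {R : Type*} [CommRing R]

/-- the series `1/√(1 - 2 c x² + x⁴)`, `c = 1 - 2y` -/
noncomputable def cl (y : R) : R⟦X⟧ := PowerSeries.expand 2 (by norm_num) (lgs y)

theorem cl_sq (y : R) : cl y ^ 2 * (1 - 2 * C (1 - 2 * y) * X ^ 2 + X ^ 4) = 1 := by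
  have h := congrArg (PowerSeries.expand 2 (by norm_num : (2:ℕ) ≠ 0)) (lgs_sq y)
  rw [map_mul, map_pow, map_one] at h
  simp only [map_add, map_sub, map_mul, map_one, map_pow, map_ofNat, PowerSeries.expand_X,
    PowerSeries.expand_C] at h
  have e : (1 - 2 * C (1 - 2 * y) * X ^ 2 + X ^ 4 : R⟦X⟧) = 1 - 2 * (1 - 2 * C y) * X ^ 2 + (X ^ 2) ^ 2 := by
    simp only [map_sub, map_mul, map_one, map_ofNat]; ring
  rw [e]
  exact h

theorem cl_coeff (y : R) (n : ℕ) : coeff (2 * n) (cl y) = lg n y := by
  unfold cl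
  rw [coeff_expand]
  simp [lgs]

theorem cl_map {T : Type*} [CommRing T] (g : R →+* T) (y : R) : PowerSeries.map g (cl y) = cl (g y) := by
  ext n
  unfold cl
  rw [PowerSeries.coeff_map, coeff_expand, coeff_expand]
  split_ifs
  · rw [← lgs_map, PowerSeries.coeff_map]
  · rw [map_zero]

theorem aeval_X2 (P : Polynomial R) : Polynomial.aeval ((X : R⟦X⟧) ^ 2) P =
    ((Polynomial.expand R 2 P : Polynomial R) : R⟦X⟧) := by
  induction P using Polynomial.induction_on' with
  | add P Q h1 h2 => rw [map_add, map_add, h1, h2, Polynomial.coe_add]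
  | monomial n a =>
    rw [← Polynomial.C_mul_X_pow_eq_monomial, map_mul, map_pow, Polynomial.aeval_C, Polynomial.aeval_X,
      map_mul, map_pow, Polynomial.expand_C, Polynomial.expand_X, Polynomial.coe_mul, Polynomial.coe_pow,
      Polynomial.coe_pow, Polynomial.coe_C, Polynomial.coe_X]
    rfl

theorem coeff_aeval_X2 (P : Polynomial R) (i : ℕ) :
    coeff (2 * i) (Polynomial.aeval ((X : R⟦X⟧) ^ 2) P) = P.coeff i := by
  rw [aeval_X2, Polynomial.coeff_coe, mul_comm, Polynomial.coeff_expand_mul (by norm_num)]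

end ser

variable {O K k : Type*} [CommRing O] [IsDomain O] [Field K] [Algebra O K] [Field k]
  (S : DV O K k)

set_option maxHeartbeats 1000000 in
/-- **The unit root modulo `p²`.** -/
theorem key2 [CharZero O] {p : ℕ} [hp : Fact p.Prime] [CharP k p] (hp2 : p ≠ 2) (hq : S.q = (p : O))
    {y c w : O} (hc : c = 1 - 2 * y) (hcp : S.red c ^ p = S.red c) (hw : S.red w ≠ 0)
    {N D M : Polynomial O} (hN : N.map S.red = Polynomial.X ^ p) (hD : D.map S.red = 1)
    (hNd : N.natDegree ≤ p) (hDd : D.natDegree < p) (hN0 : N.coeff 0 = 0) (hwr : wr N D = Polynomial.C S.q * M)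
    (ode : gs c * M ^ 2 = Polynomial.C w ^ 2 * hs c N D) :
    ∃ ε : O, (ε = 1 ∨ ε = -1) ∧ S.q ^ 2 ∣ ε * w * lg ((p - 1) / 2) y - 1 ∧
      M.map S.red = Polynomial.C (S.red (ε * w)) * gs (S.red c) ^ ((p - 1) / 2) := by
  have hp0 := hp.out.pos
  have hp2' := hp.out.two_le
  obtain ⟨e, he⟩ := hp.out.odd_of_ne_two hp2
  have he' : (p - 1) / 2 = e := by omega
  set q := S.q with hqd
  have hq0 : q ≠ 0 := S.q_ne
  have hrq : S.red q = 0 := S.red_q
  have hw0 : w ≠ 0 := by rintro rfl; exact hw (map_zero _)
  have h2k : (2 : k) ≠ 0 := by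
    intro h2
    have : ((2 : ℕ) : k) = 0 := by exact_mod_cast h2
    rw [CharP.cast_eq_zero_iff k p] at this
    exact hp2 ((Nat.prime_dvd_prime_iff_eq hp.out (by norm_num)).mp this)
  have h2u : IsUnit (2 : O) := S.unit_of_red (by rw [map_ofNat]; exact h2k)
  have h2O : (2 : O) ≠ 0 := h2u.ne_zero
  have hCq : (C q : O⟦X⟧) ≠ 0 := fun h => hq0 (by
    have := congrArg constantCoeff h
    simpa using this)
  have hCqP : (Polynomial.C q : Polynomial O) ≠ 0 := Polynomial.C_ne_zero.mpr hq0
  -- the full differential equation and the leading coefficients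
  have odeF : gs c * wr N D ^ 2 = Polynomial.C (q * w) ^ 2 * hs c N D := by
    rw [hwr, Polynomial.C_mul]
    linear_combination (Polynomial.C q) ^ 2 * ode
  have hlead := lead_sq S (mul_ne_zero hq0 hw0) hN hD hNd hDd hN0 odeF
  obtain ⟨T, hT⟩ := S.dvd_of_map (P := N - Polynomial.X ^ p * D) (by
    rw [Polynomial.map_sub, Polynomial.map_mul, Polynomial.map_pow, Polynomial.map_X, hN, hD, mul_one, sub_self])
  have hNT : N = Polynomial.X ^ p * D + Polynomial.C q * T := by rw [← hT]; ring
  have hTp : S.red (T.coeff p) = 0 := by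
    have h1 := congrArg (fun P => P.coeff p) hNT
    simp only [Polynomial.coeff_add, Polynomial.coeff_C_mul] at h1
    have h2 : (Polynomial.X ^ p * D).coeff p = D.coeff 0 := by
      rw [Polynomial.coeff_X_pow_mul', if_pos le_rfl, Nat.sub_self]
    rw [h2] at h1
    rw [h1, ← hqd] at hlead
    obtain ⟨r, hr⟩ := hlead
    have h3 : T.coeff p * (2 * D.coeff 0 + q * T.coeff p) = q * r := by
      apply mul_left_cancel₀ hq0
      linear_combination hr
    have h4 := congrArg S.red h3
    have hD0 : S.red (D.coeff 0) = 1 := by rw [← Polynomial.coeff_map, hD, Polynomial.coeff_one_zero]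
    rw [map_mul, map_mul, map_add, map_mul, map_mul, hrq, hD0, zero_mul, zero_mul, map_ofNat, mul_one,
      add_zero] at h4
    exact (mul_eq_zero.mp h4).resolve_right h2k
  -- names
  set al := Polynomial.aeval (R := O) ((X : O⟦X⟧) ^ 2) with hal
  have alC : ∀ c : O, al (Polynomial.C c) = C c := fun c => by
    rw [hal, Polynomial.aeval_C]; rfl
  have alX : al Polynomial.X = X ^ 2 := Polynomial.aeval_X _
  have hX2d : d⁄dX O (X ^ 2 : O⟦X⟧) = 2 * X := by
    rw [derivative_pow, derivative_X]; push_cast; ring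
  have alD : ∀ P : Polynomial O, d⁄dX O (al P) = al (Polynomial.derivative P) * (2 * X) := by
    rw [← hX2d, hal]
    generalize (X : O⟦X⟧) ^ 2 = Y2
    intro P
    induction P using Polynomial.induction_on' with
    | add P Q h1 h2 => rw [map_add, map_add, map_add, map_add, h1, h2]; ring
    | monomial n a =>
      have aC : ∀ c : O, Polynomial.aeval Y2 (Polynomial.C c) = C c := fun c => by
        rw [Polynomial.aeval_C]; rfl
      rw [← Polynomial.C_mul_X_pow_eq_monomial, map_mul, map_pow, aC, Polynomial.aeval_X, Derivation.leibniz,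
        derivative_C, derivative_pow, Polynomial.derivative_C_mul, Polynomial.derivative_X_pow,
        map_mul, map_mul, map_pow, aC, Polynomial.aeval_X, smul_eq_mul, smul_eq_mul, map_natCast, map_natCast]
      ring
  obtain ⟨D1, hD1⟩ := S.dvd_of_map (P := D - 1) (by
    rw [Polynomial.map_sub, hD, Polynomial.map_one, sub_self])
  have hDe : al D = 1 + C q * al D1 := by
    have : D = 1 + Polynomial.C q * D1 := by rw [← hD1]; ring
    conv_lhs => rw [this]
    rw [map_add, map_one, map_mul, alC]
  have hDu : IsUnit (al D) := by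
    rw [PowerSeries.isUnit_iff_constantCoeff]
    apply S.unit_of_red
    rw [hDe, map_add, map_mul, map_one, constantCoeff_C, map_add, map_mul, map_one, hrq]
    simp
  obtain ⟨iD, hiD⟩ := hDu.exists_left_inv
  set U := al N * iD with hU
  set U1 := al M * (2 * X) * iD ^ 2 with hU1
  set v : O⟦X⟧ := X ^ p with hv
  set η := al T * iD with hη
  have hUv : U = v ^ 2 + C q * η := by
    rw [hU, hNT, map_add, map_mul, map_mul, map_pow, alC, alX]
    rw [hv]
    linear_combination (X ^ 2) ^ p * hiD
  -- derivative of U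
  have hiD' : d⁄dX O iD = - iD ^ 2 * (al (Polynomial.derivative D) * (2 * X)) := by
    have h := congrArg (d⁄dX O) hiD
    rw [Derivation.leibniz, derivative_one, smul_eq_mul, smul_eq_mul, alD] at h
    linear_combination iD * h - (d⁄dX O iD) * hiD
  have hdU : d⁄dX O U = C q * U1 := by
    have hw' : al (Polynomial.derivative N) * al D - al N * al (Polynomial.derivative D) = C q * al M := by
      rw [← alC, ← map_mul al (Polynomial.C q), ← hwr, wr, map_sub, map_mul, map_mul]
    rw [hU, Derivation.leibniz, smul_eq_mul, smul_eq_mul, alD, hiD', hU1]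
    linear_combination (2 * X) * iD ^ 2 * hw' - (2 * X) * iD * al (Polynomial.derivative N) * hiD
  set v1 : O⟦X⟧ := X ^ (p - 1) with hv1
  have hCp : (C q : O⟦X⟧) = (p : O⟦X⟧) := by rw [hq, map_natCast]
  have hdv : d⁄dX O v = C q * v1 := by
    rw [hv, derivative_pow, hCp, hv1, derivative_X]; ring
  -- the differential equation
  set cs := cl y with hcs
  set g : O⟦X⟧ := 1 - 2 * C c * X ^ 2 + X ^ 4 with hg
  have hcg : cs ^ 2 * g = 1 := by rw [hg, hcs, hc]; exact cl_sq y
  have hgs : al (gs c) = X ^ 2 * g := by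
    rw [hg, gs]
    simp only [map_add, map_sub, map_mul, map_pow, map_one, map_ofNat, alC, alX]
    ring
  have hode := congrArg al ode
  rw [map_mul, map_pow, map_mul, map_pow, alC, hgs] at hode
  have htu : al (hs c N D) = al N * al D * (al D ^ 2 - 2 * C c * (al N * al D) + al N ^ 2) := by
    simp only [hs, map_mul, map_add, map_sub, map_pow, alC, map_ofNat]
  rw [htu] at hode
  have hde : U1 ^ 2 = 4 * C w ^ 2 * cs ^ 2 * (U * (1 - 2 * C c * U + U ^ 2)) := by
    have e2 : U * (1 - 2 * C c * U + U ^ 2) =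
        iD ^ 4 * (al N * al D * (al D ^ 2 - 2 * C c * (al N * al D) + al N ^ 2)) := by
      rw [hU]
      linear_combination (-(al N * iD * (1 + iD * al D + (iD * al D) ^ 2)) +
        2 * C c * al N ^ 2 * iD ^ 2 * (1 + iD * al D) - al N ^ 3 * iD ^ 3) * hiD
    have e1 : U1 ^ 2 * g = 4 * C w ^ 2 * (U * (1 - 2 * C c * U + U ^ 2)) := by
      rw [e2, hU1]
      linear_combination (4 * iD ^ 4) * hode
    calc U1 ^ 2 = cs ^ 2 * (U1 ^ 2 * g) := by linear_combination (-U1 ^ 2) * hcg
      _ = _ := by rw [e1]; ring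
  -- constant terms
  have hc0 : constantCoeff cs = 1 := by
    have := cl_coeff y 0
    rw [mul_zero, Pool.Agent.H546.lg_zero, coeff_zero_eq_constantCoeff_apply] at this
    exact this
  have hal0 : ∀ P : Polynomial O, constantCoeff (al P) = P.coeff 0 := by
    intro P
    have := coeff_aeval_X2 P 0
    rw [mul_zero, coeff_zero_eq_constantCoeff_apply] at this
    exact this
  have hU0 : constantCoeff U = 0 := by rw [hU, map_mul, hal0, hN0, zero_mul]
  -- the square root of the last factor
  obtain ⟨i4, hi4⟩ := (h2u.mul h2u).exists_left_inv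
  have hi4' : (4 : O⟦X⟧) * C i4 = 1 := by
    have : (4 : O⟦X⟧) = C 4 := (map_ofNat C 4).symm
    rw [this, ← map_mul, show (4 : O) = 2 * 2 by norm_num, mul_comm, hi4, map_one]
  set t := C i4 * (U * (2 * C c - U)) with ht
  obtain ⟨B, hB⟩ := exists_cat t (by rw [ht]; simp [hU0])
  set s := 1 - 2 * t * B with hs
  have hs2 : s ^ 2 = 1 - 2 * C c * U + U ^ 2 := by
    have : (1 - 2 * C c * U + U ^ 2) = 1 - 4 * t := by
      rw [ht]; linear_combination (U * (2 * C c - U)) * hi4'
    rw [this, hs]
    linear_combination (-4 * t) * hB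
  have hs0 : constantCoeff s = 1 := by
    rw [hs, ht]; simp [hU0]
  have hsu : IsUnit s := by
    rw [PowerSeries.isUnit_iff_constantCoeff, hs0]; exact isUnit_one
  obtain ⟨is, his⟩ := hsu.exists_left_inv
  have hwcu : IsUnit (2 * C w * cs) := by
    rw [PowerSeries.isUnit_iff_constantCoeff]
    apply S.unit_of_red
    simp only [map_mul, constantCoeff_C, hc0, map_ofNat, mul_one]
    exact mul_ne_zero h2k hw
  obtain ⟨iw, hiw⟩ := hwcu.exists_left_inv
  -- the coordinate
  set Z := U1 * iw * is with hZ
  have hZs : 2 * C w * cs * (Z * s) = U1 := by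
    rw [hZ]
    linear_combination (U1 * is * s) * hiw + U1 * his
  have hZ2 : Z ^ 2 = U := by
    have h1 : (2 * C w * cs * (Z * s)) ^ 2 = 4 * C w ^ 2 * cs ^ 2 * (U * s ^ 2) := by
      rw [hZs, hde, hs2]
    have h2 : IsUnit ((2 * C w * cs) ^ 2 * s ^ 2) := (hwcu.pow 2).mul (hsu.pow 2)
    apply h2.mul_left_cancel
    linear_combination h1
  -- the sign
  have hbq : PowerSeries.map S.red (C q) = 0 := by
    rw [PowerSeries.map_C, hrq, map_zero]
  have hvr : PowerSeries.map S.red v = X ^ p := by rw [hv, map_pow, PowerSeries.map_X]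
  have hZv : (PowerSeries.map S.red Z) ^ 2 = (PowerSeries.map S.red v) ^ 2 := by
    rw [← map_pow, hZ2, hUv, map_add, map_pow, map_mul, hbq, zero_mul, add_zero]
  obtain ⟨ε, hε1, hεs⟩ : ∃ ε : O, (ε = 1 ∨ ε = -1) ∧ PowerSeries.map S.red (Z - C ε * v) = 0 := by
    rcases sq_eq_sq_iff_eq_or_eq_neg.mp hZv with h | h
    · exact ⟨1, Or.inl rfl, by rw [map_one, one_mul, map_sub, h, sub_self]⟩
    · refine ⟨-1, Or.inr rfl, ?_⟩
      have : (C (-1 : O)) = (-1 : O⟦X⟧) := by simp
      rw [this, map_sub, h, map_mul, map_neg, map_one]; ring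
  have hε : ε ^ 2 = 1 := by rcases hε1 with h | h <;> rw [h] <;> ring
  have hCε : (C ε : O⟦X⟧) ^ 2 = 1 := by rw [← map_pow, hε, map_one]
  obtain ⟨ζ0, hζ0⟩ := S.dvd_ps hεs
  rw [← hqd] at hζ0
  set ζ := C ε * ζ0 with hζ
  have hZe : Z = C ε * (v + C q * ζ) := by
    rw [hζ]
    linear_combination hζ0 - (C q * ζ0) * hCε
  clear_value ζ
  refine ⟨ε, hε1, ?_, ?_⟩
  · -- the coefficient
    have hvr0 : (X : k⟦X⟧) ^ p ≠ 0 := pow_ne_zero _ X_ne_zero
    have hZ0 : Z ≠ 0 := by
      intro h0
      rw [h0, map_zero, zero_pow two_ne_zero] at hZv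
      exact pow_ne_zero 2 (by rw [hvr]; exact hvr0) hZv.symm
    have h2ps : (2 : O⟦X⟧) ≠ 0 := by
      have : (2 : O⟦X⟧) = C 2 := (map_ofNat C 2).symm
      rw [this]
      intro h0
      apply h2O
      have := congrArg constantCoeff h0
      simpa only [constantCoeff_C, map_zero] using this
    have hdZ : d⁄dX O Z = C q * (C w * cs * s) := by
      have h1 := congrArg (d⁄dX O) hZ2
      rw [hdU, derivative_pow, ← hZs] at h1
      push_cast at h1
      apply mul_left_cancel₀ (mul_ne_zero h2ps hZ0)
      linear_combination h1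
    have hex : C (ε * w) * cs * s = v1 + d⁄dX O ζ := by
      apply mul_left_cancel₀ hCq
      have h1 := congrArg (d⁄dX O) hZe
      rw [hdZ, Derivation.leibniz, derivative_C, map_add, hdv, Derivation.leibniz, derivative_C] at h1
      simp only [smul_eq_mul, mul_zero, add_zero] at h1
      rw [map_mul]
      linear_combination (C ε) * h1 + (C q * (v1 + d⁄dX O ζ)) * hCε
    have hUe : U = v ^ 2 + 2 * C q * v * ζ + C q ^ 2 * ζ ^ 2 := by
      rw [← hZ2, hZe]; linear_combination ((v + C q * ζ) ^ 2) * hCε
    -- the coefficient of `ζ`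
    have hζη : 2 * v * ζ + C q * ζ ^ 2 = η := by
      apply mul_left_cancel₀ hCq
      linear_combination hUv - hUe
    have hbD : PowerSeries.map S.red (al D) = 1 := by
      rw [hDe, map_add, map_one, map_mul, hbq, zero_mul, add_zero]
    have hbiD : PowerSeries.map S.red iD = 1 := by
      have := congrArg (PowerSeries.map S.red) hiD
      rw [map_mul, hbD, mul_one, map_one] at this
      exact this
    have hζp : S.red (coeff p ζ) = 0 := by
      have h0 := congrArg (PowerSeries.map S.red) hζη
      rw [map_add, map_mul, map_mul, map_mul, hbq, zero_mul, add_zero, map_ofNat, hvr, hη, map_mul, hbiD,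
        mul_one, show (2 : k⟦X⟧) * X ^ p * PowerSeries.map S.red ζ = C 2 * (X ^ p * PowerSeries.map S.red ζ) by
          rw [map_ofNat]; ring] at h0
      have h1 := congrArg (coeff (2 * p)) h0
      rw [PowerSeries.coeff_map, coeff_aeval_X2, hTp, coeff_C_mul, show 2 * p = p + p by ring, coeff_X_pow_mul,
        PowerSeries.coeff_map] at h1
      exact (mul_eq_zero.mp h1).resolve_left h2k
    obtain ⟨z1, hz1⟩ := (S.red_iff _).mp hζp
    rw [← hqd] at hz1
    set W := C i4 * (2 * C c - U) * (2 * B) * cs with hW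
    have h1 : C (ε * w) * cs = v1 + d⁄dX O ζ + X ^ p * (C (ε * w) * (v + 2 * C q * ζ) * W) +
        C (q ^ 2) * (C (ε * w) * ζ ^ 2 * W) := by
      have e1 : cs * s = cs - U * W := by rw [hs, ht, hW]; ring
      have e2 : C (ε * w) * cs = v1 + d⁄dX O ζ + C (ε * w) * (U * W) := by
        rw [← hex]; linear_combination (-C (ε * w)) * e1
      rw [e2, hUe, map_pow]
      rw [show (X : O⟦X⟧) ^ p = v from rfl]
      ring
    have h2 := congrArg (coeff (p - 1)) h1
    rw [coeff_C_mul, map_add, map_add, map_add, coeff_C_mul, coeff_derivative,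
      show p - 1 + 1 = p by omega, coeff_X_pow_mul', if_neg (by omega), hz1] at h2
    have h3 : coeff (p - 1) v1 = 1 := by rw [hv1, coeff_X_pow, if_pos rfl]
    have h4 : coeff (p - 1) cs = lg ((p - 1) / 2) y := by
      have := cl_coeff y e
      rw [he', ← this, show 2 * e = p - 1 by omega]
    have h5 : (((p - 1 : ℕ) : O) + 1) = q := by
      rw [hq, ← Nat.cast_succ, show (p - 1).succ = p by omega]
    rw [h3, h4, h5] at h2
    refine ⟨z1 + coeff (p - 1) (C (ε * w) * ζ ^ 2 * W), ?_⟩
    linear_combination h2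
  · -- the sign of `M`
    have hbD : PowerSeries.map S.red (al D) = 1 := by
      rw [hDe, map_add, map_one, map_mul, hbq, zero_mul, add_zero]
    have hbiD : PowerSeries.map S.red iD = 1 := by
      have := congrArg (PowerSeries.map S.red) hiD
      rw [map_mul, hbD, mul_one, map_one] at this
      exact this
    have halr : ∀ P : Polynomial O, PowerSeries.map S.red (al P) =
        Polynomial.aeval ((X : k⟦X⟧) ^ 2) (P.map S.red) := by
      intro P
      induction P using Polynomial.induction_on' with
      | add P Q h1 h2 => rw [map_add, map_add, h1, h2, Polynomial.map_add, map_add]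
      | monomial n a =>
        rw [← Polynomial.C_mul_X_pow_eq_monomial, map_mul, map_pow, alC, alX, map_mul, PowerSeries.map_C,
          map_pow, map_pow, PowerSeries.map_X, Polynomial.map_mul, Polynomial.map_pow, Polynomial.map_X,
          Polynomial.map_C, map_mul, map_pow, Polynomial.aeval_X, Polynomial.aeval_C]
        rfl
    have hZr : PowerSeries.map S.red Z = C (S.red ε) * X ^ p := by
      rw [hZe, map_mul, map_add, map_mul, hbq, zero_mul, add_zero, hvr, PowerSeries.map_C]
    set gb : k⟦X⟧ := 1 - 2 * C (S.red c) * X ^ 2 + X ^ 4 with hgb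
    set csb := PowerSeries.map S.red cs with hcsb
    set sb := PowerSeries.map S.red s with hsb
    have hgb' : PowerSeries.map S.red g = gb := by
      rw [hg, hgb]
      simp only [map_add, map_sub, map_mul, map_pow, map_one, map_ofNat, PowerSeries.map_X, PowerSeries.map_C]
    have c1 : csb ^ 2 * gb = 1 := by
      rw [hcsb, ← hgb', ← map_pow, ← map_mul, hcg, map_one]
    have hUr : PowerSeries.map S.red U = X ^ (2 * p) := by
      rw [← hZ2, map_pow, hZr, mul_pow, ← map_pow, ← map_pow, hε, map_one, map_one, one_mul, ← pow_mul,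
        mul_comm p 2]
    have hch : CharP k⟦X⟧ p := by
      refine ⟨fun n => ?_⟩
      rw [← CharP.cast_eq_zero_iff k p n, ← map_natCast (C : k →+* k⟦X⟧)]
      constructor
      · intro h
        have := congrArg constantCoeff h
        simpa using this
      · intro h; rw [h, map_zero]
    have c2 : sb ^ 2 = gb ^ p := by
      have h2p : (2 : k⟦X⟧) ^ p = 2 := by
        have h := frobenius_def (R := k⟦X⟧) p 2
        rw [← h, map_ofNat]
      have e1 : gb ^ p = 1 - 2 * C (S.red c) * (X ^ 2) ^ p + (X ^ 4) ^ p := by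
        rw [hgb, add_pow_char, sub_pow_char, one_pow, mul_pow, mul_pow, h2p, ← map_pow, hcp]
      rw [e1, hsb, ← map_pow, hs2]
      clear_value U
      simp only [map_add, map_sub, map_mul, map_pow, map_one, map_ofNat, PowerSeries.map_C, hUr]
      ring
    have c3 : (csb * sb) ^ 2 = (gb ^ e) ^ 2 := by
      rw [mul_pow, c2, he]
      have : csb ^ 2 * gb ^ (2 * e + 1) = (csb ^ 2 * gb) * (gb ^ e) ^ 2 := by ring
      rw [this, c1, one_mul]
    have c4 : csb * sb = gb ^ e := by
      rcases sq_eq_sq_iff_eq_or_eq_neg.mp c3 with h | h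
      · exact h
      · exfalso
        have h5 := congrArg constantCoeff h
        have k1 : constantCoeff csb = 1 := by
          rw [hcsb, ← coeff_zero_eq_constantCoeff_apply, PowerSeries.coeff_map, coeff_zero_eq_constantCoeff_apply,
            hc0, map_one]
        have k2 : constantCoeff sb = 1 := by
          rw [hsb, ← coeff_zero_eq_constantCoeff_apply, PowerSeries.coeff_map, coeff_zero_eq_constantCoeff_apply,
            hs0, map_one]
        have k3 : constantCoeff gb = 1 := by rw [hgb]; simp
        rw [map_mul, k1, k2, map_neg, map_pow, k3, one_pow] at h5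
        apply h2k
        linear_combination h5
    have hfin := congrArg (PowerSeries.map S.red) hZs
    rw [hU1] at hfin
    simp only [map_mul, map_pow, map_ofNat, PowerSeries.map_C, PowerSeries.map_X, hbiD, hZr, halr, one_pow,
      mul_one] at hfin
    have h2X : (2 * X : k⟦X⟧) ≠ 0 := by
      refine mul_ne_zero ?_ X_ne_zero
      have : (2 : k⟦X⟧) = C 2 := (map_ofNat C 2).symm
      rw [this]
      intro h0
      apply h2k
      have := congrArg constantCoeff h0
      simpa using this
    have h6 : Polynomial.aeval ((X : k⟦X⟧) ^ 2) (M.map S.red) =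
        Polynomial.aeval ((X : k⟦X⟧) ^ 2) (Polynomial.C (S.red (ε * w)) * gs (S.red c) ^ ((p - 1) / 2)) := by
      apply mul_left_cancel₀ h2X
      have e1 : Polynomial.aeval ((X : k⟦X⟧) ^ 2) (gs (S.red c)) = X ^ 2 * gb := by
        rw [gs, hgb]
        simp only [map_add, map_sub, map_mul, map_pow, map_one, map_ofNat, Polynomial.aeval_X, Polynomial.aeval_C]
        have : (algebraMap k k⟦X⟧) (S.red c) = C (S.red c) := rfl
        rw [this]
        ring
      have e2 : Polynomial.aeval ((X : k⟦X⟧) ^ 2) (Polynomial.C (S.red (ε * w))) = C (S.red ε) * C (S.red w) := by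
        rw [Polynomial.aeval_C]
        show C (S.red (ε * w)) = _
        rw [map_mul, map_mul]
      have e3 : (X : k⟦X⟧) ^ p = X * (X ^ 2) ^ e := by
        rw [he, pow_succ, pow_mul]; ring
      rw [map_mul, map_pow, e1, e2, he', mul_pow, ← c4]
      rw [e3] at hfin
      linear_combination -hfin
    ext i
    have := congrArg (coeff (2 * i)) h6
    rwa [coeff_aeval_X2, coeff_aeval_X2] at this

end Pool.Agent.H501
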