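import Pool.Agent.H501.K2.Key
import Pool.Agent.H501.K2.Ker3
import Pool.Agent.H501.K2.DatK
import Pool.Agent.H546.Lin

set_option autoImplicit false

/-!
# The unit root from the identity and an endomorphism killing a point of order three
-/

namespace Pool.Agent.H501

open Polynomial WeierstrassCurve WeierstrassCurve.Affine WithZero
open Pool.Agent.H546 (DV wr wr_map cub cub_map cub_ne tgt qa qb qa_map qb_map discq Good Nice hgt hgt_zero rep DatE TWf Pt
  Ker ve ve_C ve_one ve_frac ve_frac_le ve_frac_one ve_frac_gt ve_lt_iff pt_of_rep frob_struct2 form_value twoK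
  small_ne lg charZero_O)
open Pool.Agent.Q267.MW (SW io io_inj io_ne)

variable {O K k : Type*} [CommRing O] [IsDomain O] [Field K] [Algebra O K] [Field k]
  (S : DV O K k)

omit [IsDomain O] in
theorem evmE (P : O[X]) (e : O) : (P.map (algebraMap O K)).eval (algebraMap O K e) = algebraMap O K (P.eval e) := by
  rw [eval_map_algebraMap, aeval_algebraMap_apply, coe_aeval_eq_eval]

theorem datE_id (a b : O) : DatE S (cub a b) a b 1 1 X 1 := by
  refine ⟨?_, one_ne_zero, ?_, natDegree_X, ?_, ?_, ?_⟩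
  · simp only [wr, derivative_X, derivative_one, tgt, cub, C_1]; ring
  · rw [natDegree_one, natDegree_X]; norm_num
  · rw [Polynomial.map_one]; exact isCoprime_one_right
  · rw [Polynomial.map_one]; exact isCoprime_one_right
  · rw [map_X, natDegree_X, natDegree_X]

omit [IsDomain O] in
theorem cub_comps {z c α : O} (hz : c ^ 2 * z = 1) (hα : α * c = 18) :
    (cub (qa z) (qb z)).comp (C α * X - 12) = C α ^ 3 * gs c := by
  have h1 : α ^ 2 = 324 * z := by linear_combination (-α ^ 2) * hz + z * (α * c + 18) * hα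
  have h1' : (C α : O[X]) ^ 2 = 324 * C z := by
    rw [← C_pow, h1, C_mul, map_ofNat]
  have hα' : (C α : O[X]) * C c = 18 := by rw [← C_mul, hα, map_ofNat]
  simp only [cub, qa, qb, gs, add_comp, mul_comp, pow_comp, X_comp, C_comp, C_sub, C_mul,
    map_ofNat, sub_comp, ofNat_comp]
  linear_combination (2 * X ^ 2 * C α ^ 2) * hα' - X * C α * h1'

omit [IsDomain O] in
theorem tgt_s {z c α : O} (hz : c ^ 2 * z = 1) (hα : α * c = 18) (N D : O[X]) :
    tgt (qa z) (qb z) (C α * N - 12 * D) D = C α ^ 3 * hs c N D := by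
  have h1 : α ^ 2 = 324 * z := by linear_combination (-α ^ 2) * hz + z * (α * c + 18) * hα
  have h1' : (C α : O[X]) ^ 2 = 324 * C z := by
    rw [← C_pow, h1, C_mul, map_ofNat]
  have hα' : (C α : O[X]) * C c = 18 := by rw [← C_mul, hα, map_ofNat]
  simp only [tgt, qa, qb, hs, C_sub, C_mul, map_ofNat]
  linear_combination (2 * N ^ 2 * D ^ 2 * C α ^ 2) * hα' - N * D ^ 3 * C α * h1'

/-- passage to the symmetric model -/
theorem to_s {p : ℕ} [hp : Fact p.Prime] [CharP k p] {z c α w : O} (hz : c ^ 2 * z = 1) (hα : α * c = 18)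
    (hα0 : S.red α ≠ 0) (hαp : S.red α ^ p = S.red α) (hw : S.red w ≠ 0)
    {n d M : O[X]} (hn : n.map S.red = X ^ p) (hd : d.map S.red = 1)
    (hnd : n.natDegree ≤ p) (hdd : d.natDegree < p) (hwr : wr n d = C S.q * M)
    (ode : cub (qa z) (qb z) * M ^ 2 = C w ^ 2 * tgt (qa z) (qb z) n d) :
    ∃ N D : O[X], N.map S.red = X ^ p ∧ D.map S.red = 1 ∧ N.natDegree ≤ p ∧ D.natDegree < p ∧
      N.coeff 0 = 0 ∧ wr N D = C S.q * M.comp (C α * X - 12) ∧
      gs c * (M.comp (C α * X - 12)) ^ 2 = C w ^ 2 * hs c N D := by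
  have hp0 := hp.out.pos
  have hα0' : α ≠ 0 := by rintro rfl; exact hα0 (map_zero _)
  obtain ⟨e, he⟩ := (S.unit_of_red hα0).exists_left_inv
  have heα : C e * C α = (1 : O[X]) := by rw [← C_mul, he, C_1]
  have hek : C (S.red e) * C (S.red α) = (1 : k[X]) := by
    rw [← C_mul, ← map_mul, he, map_one, C_1]
  have h12 : (12 : O[X]) = C 12 := (map_ofNat C 12).symm
  have hdl : (C α * X - 12 : O[X]).natDegree ≤ 1 := by rw [h12]; compute_degree
  set L : O[X] := C α * X - 12 with hL
  set n1 := n.comp L with hn1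
  set D := d.comp L with hD
  have hn1d : n1.natDegree ≤ p := by
    rw [hn1]
    refine natDegree_comp_le.trans ?_
    calc n.natDegree * L.natDegree ≤ p * 1 := Nat.mul_le_mul hnd hdl
      _ = p := mul_one p
  have hDd : D.natDegree < p := by
    rw [hD]
    refine lt_of_le_of_lt natDegree_comp_le ?_
    calc d.natDegree * L.natDegree ≤ d.natDegree * 1 := Nat.mul_le_mul le_rfl hdl
      _ < p := by rw [mul_one]; exact hdd
  have h12p : (12 : k[X]) ^ p = 12 := by
    have h := frobenius_def (R := k[X]) p 12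
    rw [← h, map_ofNat]
  have hDr : D.map S.red = 1 := by
    rw [hD, Polynomial.map_comp, hd]; simp
  have hn1r : n1.map S.red = C (S.red α) * X ^ p - 12 := by
    rw [hn1, Polynomial.map_comp, hn, pow_comp, X_comp, hL, Polynomial.map_sub, Polynomial.map_mul,
      map_X, Polynomial.map_C, Polynomial.map_ofNat, sub_pow_char, mul_pow, h12p, ← C_pow, hαp]
  have hwc : wr (C e * (n1 + 12 * D)) D = C S.q * M.comp L := by
    have e1 : wr (C e * (n1 + 12 * D)) D = C e * wr n1 D := by
      simp only [wr, derivative_mul, derivative_C, derivative_add, derivative_ofNat]; ring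
    have e2 : wr n1 D = C α * (wr n d).comp L := by
      rw [hn1, hD]
      simp only [wr, derivative_comp, sub_comp, mul_comp]
      have : derivative L = C α := by rw [hL]; simp [derivative_mul]
      rw [this]; ring
    rw [e1, e2, hwr, mul_comp, C_comp]
    linear_combination (C S.q * M.comp L) * heα
  have hodes : gs c * (M.comp L) ^ 2 = C w ^ 2 * hs c (C e * (n1 + 12 * D)) D := by
    have hcomp := congrArg (fun P => P.comp L) ode
    simp only [mul_comp, pow_comp, C_comp] at hcomp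
    rw [hL, cub_comps hz hα, ← hL] at hcomp
    have ht : (tgt (qa z) (qb z) n d).comp L =
        tgt (qa z) (qb z) (C α * (C e * (n1 + 12 * D)) - 12 * D) D := by
      have : C α * (C e * (n1 + 12 * D)) - 12 * D = n1 := by
        linear_combination (n1 + 12 * D) * heα
      rw [this, hn1, hD]
      simp only [tgt, mul_comp, add_comp, pow_comp, C_comp]
    rw [ht, tgt_s hz hα] at hcomp
    have h3 : (C α : O[X]) ^ 3 ≠ 0 := pow_ne_zero 3 (C_ne_zero.mpr hα0')
    apply mul_left_cancel₀ h3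
    linear_combination hcomp
  have hNr : (C e * (n1 + 12 * D)).map S.red = X ^ p := by
    rw [Polynomial.map_mul, Polynomial.map_add, Polynomial.map_mul, map_C, hn1r, hDr, Polynomial.map_ofNat]
    linear_combination X ^ p * hek
  refine ⟨C e * (n1 + 12 * D), D, hNr, hDr, ?_, hDd, ?_, hwc, hodes⟩
  · refine (natDegree_C_mul_le _ _).trans ?_
    refine (natDegree_add_le _ _).trans (max_le hn1d ?_)
    rw [h12]
    exact (natDegree_C_mul_le _ _).trans hDd.le
  · set N := C e * (n1 + 12 * D) with hN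
    have h0 := congrArg (fun P => P.coeff 0) hodes
    simp only [gs, hs, coeff_zero_eq_eval_zero, eval_mul, eval_add, eval_sub, eval_pow, eval_C, eval_X,
      zero_mul] at h0
    simp only [← coeff_zero_eq_eval_zero] at h0
    have hN0 : S.red (N.coeff 0) = 0 := by
      rw [← coeff_map, hNr, coeff_X_pow, if_neg (by omega)]
    have hD0 : S.red (D.coeff 0) = 1 := by
      rw [← coeff_map, hDr, coeff_one_zero]
    have h1 : N.coeff 0 * (w ^ 2 * D.coeff 0 * (D.coeff 0 ^ 2 - 2 * c * (N.coeff 0 * D.coeff 0) +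
        N.coeff 0 ^ 2)) = 0 := by linear_combination -h0
    rcases mul_eq_zero.mp h1 with h | h
    · exact h
    · exfalso
      have h2 := congrArg S.red h
      simp only [map_mul, map_add, map_sub, map_pow, hN0, hD0, map_zero] at h2
      apply pow_ne_zero 2 hw
      linear_combination h2

theorem DatE_point {f : O[X]} {a b m : O} {l : ℕ} {n d : O[X]} (h : DatE S f a b m l n d) (hf : f ≠ 0)
    (h2 : (2 : k) ≠ 0) (hΔ : S.red (4 * a ^ 3 + 27 * b ^ 2) ≠ 0) (hm : m ≠ 0) :
    ∃ v : (TWf (f.map (algebraMap O K)) (algebraMap O K a) (algebraMap O K b)).Point,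
      Good (algebraMap O K m) v ∧ Nice S v ∧ hgt v = l ∧ v ≠ 0 ∧
      Pt v (io (n.map (algebraMap O K)) / io (d.map (algebraMap O K)))
        (io ((wr n d).map (algebraMap O K)) / io (C (algebraMap O K m) * (d.map (algebraMap O K)) ^ 2)) :=
  Pool.Agent.H546.DatE.point S h hf h2 hΔ hm

set_option maxHeartbeats 1000000 in
/-- **The unit root modulo `p²`, with sign.** -/
theorem lift2 {p : ℕ} [hp : Fact p.Prime] [CharP k p] [IsAlgClosed k] (hp10 : 10 < p) (hq : S.q = (p : O))
    {z c α y VT xT : O} (hz : c ^ 2 * z = 1) (hα : α * c = 18) (hy : c = 1 - 2 * y)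
    (hcp : S.red c ^ p = S.red c) (hz1 : S.red (1 - z) ≠ 0) (ha0 : S.red (qa z) ≠ 0) (hb0 : S.red (qb z) ≠ 0)
    {m2 : O} {l2 : ℕ} (hm2 : m2 ≠ 0) (hl20 : 0 < l2)
    (d2 : ∃ n d : O[X], DatE S (cub (qa z) (qb z)) (qa z) (qb z) m2 l2 n d ∧ d.eval (9 * VT - 12) = 0 ∧
      n.eval (9 * VT - 12) ≠ 0)
    (hT : 3 * (9 * VT - 12) ^ 4 + 6 * qa z * (9 * VT - 12) ^ 2 + 12 * qb z * (9 * VT - 12) - qa z ^ 2 = 0)
    (hxT : α * xT = 9 * VT) (hgT : S.red ((gs c).eval xT) ≠ 0)
    (r s ε : ℤ) (hε : ε = 1 ∨ ε = -1) (h3r : (3 : ℤ) ∣ r - ε)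
    (hform : (p : ℤ) = r ^ 2 + s ^ 2 * l2) (hr : ¬ (p : ℤ) ∣ r) (hs : ¬ (p : ℤ) ∣ s)
    (hbig : 16 * l2 < p ^ 2) {w : O} (hc : (r : O) + (s : O) * m2 = p * w) (hw : S.red w ≠ 0) :
    ∃ ε0 : O, (ε0 = 1 ∨ ε0 = -1) ∧ (p : O) ^ 2 ∣ ε0 * w * lg ((p - 1) / 2) y - 1 ∧
      ((ε : ℤ) : k) = S.red ε0 * S.red ((gs c).eval xT) ^ ((p - 1) / 2) := by
  classical
  have := charZero_O S (p := p) hq
  have h2 : (2 : k) ≠ 0 := by
    have := small_ne (k := k) (p := p) (n := 2) (by norm_num) (by omega)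
    exact_mod_cast this
  have h3 : (3 : k) ≠ 0 := by
    have := small_ne (k := k) (p := p) (n := 3) (by norm_num) (by omega)
    exact_mod_cast this
  have frob : ∀ x : k, x ^ p = frobenius k p x := fun x => rfl
  have hzr : S.red c ^ 2 * S.red z = 1 := by rw [← map_pow, ← map_mul, hz, map_one]
  have hc0 : S.red c ≠ 0 := by intro h0; rw [h0] at hzr; simp at hzr
  have hz0 : S.red z ≠ 0 := by intro h0; rw [h0, mul_zero] at hzr; exact zero_ne_one hzr
  have hzp : S.red z ^ p = S.red z := by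
    have h := congrArg (fun x => x ^ p) hzr
    simp only [mul_pow, one_pow, ← pow_mul, mul_comm 2 p] at h
    rw [pow_mul, hcp] at h
    apply mul_left_cancel₀ (pow_ne_zero 2 hc0)
    rw [h, hzr]
  have hαr : S.red α * S.red c = 18 := by rw [← map_mul, hα, map_ofNat]
  have h18 : (18 : k) ≠ 0 := by
    have : (18 : k) = 2 * 3 * 3 := by norm_num
    rw [this]; exact mul_ne_zero (mul_ne_zero h2 h3) h3
  have hα0 : S.red α ≠ 0 := by intro h0; rw [h0, zero_mul] at hαr; exact h18 hαr.symm
  have hαp : S.red α ^ p = S.red α := by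
    have h := congrArg (fun x => x ^ p) hαr
    simp only [mul_pow] at h
    rw [hcp, frob 18, map_ofNat] at h
    apply mul_right_cancel₀ hc0
    rw [h, hαr]
  have haa : S.red (qa z) ^ p = S.red (qa z) := by
    rw [qa_map, frob]; simp only [qa, map_sub, map_mul, map_ofNat]; rw [← frob, hzp]
  have hbb : S.red (qb z) ^ p = S.red (qb z) := by
    rw [qb_map, frob]; simp only [qb, map_sub, map_mul, map_ofNat]; rw [← frob, hzp]
  have hΔ1 : S.red (4 * qa z ^ 3 + 27 * qb z ^ 2) ≠ 0 := by
    rw [discq]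
    have : (-136048896 * (z ^ 2 * (1 - z)) : O) = -((2 ^ 8 * 3 ^ 12) * z ^ 2 * (1 - z)) := by ring
    rw [this, map_neg]
    refine neg_ne_zero.mpr ?_
    rw [map_mul, map_mul, map_mul, map_pow, map_pow, map_pow, map_ofNat, map_ofNat]
    exact mul_ne_zero (mul_ne_zero (mul_ne_zero (pow_ne_zero _ h2) (pow_ne_zero _ h3))
      (pow_ne_zero _ hz0)) hz1
  have hf0 := cub_ne (qa z) (qb z)
  have hlead : S.red (cub (qa z) (qb z)).leadingCoeff ≠ 0 := by
    have : (cub (qa z) (qb z)).leadingCoeff = 1 := by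
      have hd : (cub (qa z) (qb z)).natDegree = 3 := by
        unfold cub; compute_degree!
      rw [Polynomial.leadingCoeff, hd]
      simp [cub, Polynomial.coeff_X, Polynomial.coeff_C]
    rw [this, map_one]; exact one_ne_zero
  obtain ⟨n2, e2, D2, hd2, hn2⟩ := d2
  obtain ⟨P1, g1, k1, hh1, hP1, pt1⟩ := DatE_point S (datE_id S (qa z) (qb z)) hf0 h2 hΔ1 one_ne_zero
  obtain ⟨P2, g2, k2, hh2, hP2, pt2⟩ := DatE_point S D2 hf0 h2 hΔ1 hm2
  have hcr : S.red ((r : O) * 1 + (s : O) * m2) = 0 := by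
    rw [mul_one, hc, ← hq, map_mul, S.red_q, zero_mul]
  obtain ⟨nv, gv, hv⟩ := form_value S (p := p) hlead h2 hΔ1 g1 k1 g2 k2 r s 0
    (by rw [hh1, hh2, hform]; push_cast; ring) hr hs (by rw [hh1, hh2]; positivity)
    (by rw [hh1, hh2, one_mul]; exact hbig) hcr
  rw [mul_one, hc, ← hq] at gv
  obtain ⟨n, d, M, f1, f2, f3, f4, f5, f6, l, hl, f7, f8⟩ := frob_struct2 S (p := p) (by omega) (by omega)
    haa.symm hbb.symm ha0 hb0 hΔ1 nv gv hv hw
  obtain ⟨N, D, u1, u2, u3', u4, u5, u6, u7⟩ := to_s S hz hα hα0 hαp hw f1 f2 f3 f4 f5 f6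
  -- the point of order three
  set e : O := 9 * VT - 12 with he
  set eK : K := algebraMap O K e with heK
  have hF0 : (cub (qa z) (qb z)).map (algebraMap O K) ≠ 0 := fun h => hf0 (by
    apply Polynomial.map_injective _ S.inj; rw [h, Polynomial.map_zero])
  have h2K := twoK S h2
  have inj0 : ∀ x : O, x ≠ 0 → algebraMap O K x ≠ 0 := fun x hx h => hx (S.inj (by rw [h, map_zero]))
  have hLe : (C α * X - 12 : O[X]).eval xT = e := by
    simp only [eval_sub, eval_mul, eval_C, eval_X, eval_ofNat]; rw [he, hxT]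
  have hcub3 : (cub (qa z) (qb z)).eval e = α ^ 3 * (gs c).eval xT := by
    have := congrArg (fun P => P.eval xT) (cub_comps hz hα)
    simp only [eval_comp, hLe, eval_mul, eval_pow, eval_C] at this
    exact this
  have hcubr : S.red ((cub (qa z) (qb z)).eval e) ≠ 0 := by
    rw [hcub3, map_mul, map_pow]; exact mul_ne_zero (pow_ne_zero 3 hα0) hgT
  have ne0 : ∀ {x : O}, S.red x ≠ 0 → x ≠ 0 := by rintro x hx rfl; exact hx (map_zero _)
  have hvF : ve K eK (io ((cub (qa z) (qb z)).map (algebraMap O K))) = 1 := by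
    apply ve_one
    rw [heK, evmE]
    exact inj0 _ (ne0 hcubr)
  have hw0 : w ≠ 0 := ne0 hw
  have hqw : S.q * w ≠ 0 := mul_ne_zero S.q_ne hw0
  have hV0 : r • P1 + s • P2 ≠ 0 := by
    intro h0
    rw [h0, hgt_zero] at hv
    have := hp.out.pos
    omega
  obtain ⟨hdne, ptV⟩ := pt_of_rep hF0 (inj0 _ hqw) gv hV0 hl f7 f8
  -- evaluations
  have hd3 : S.red (d.eval e) = 1 := by
    have := congrArg (Polynomial.eval (S.red e)) f2
    rw [eval_map_apply, eval_one] at this
    exact this
  have hd3' : d.eval e ≠ 0 := by intro h0; rw [h0, map_zero] at hd3; exact zero_ne_one hd3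
  have hn3 : S.red (n.eval e) = S.red e ^ p := by
    have := congrArg (Polynomial.eval (S.red e)) f1
    rw [eval_map_apply, eval_pow, eval_X] at this
    exact this
  have hM3 : S.red (M.eval e) ≠ 0 := by
    have := congrArg (Polynomial.eval e) f6
    rw [eval_mul, eval_pow, eval_mul, eval_pow, eval_C] at this
    have e' : eval e (tgt (qa z) (qb z) n d) = d.eval e * (n.eval e ^ 3 + qa z * n.eval e *
      d.eval e ^ 2 + qb z * d.eval e ^ 3) := by
      simp only [tgt, eval_add, eval_mul, eval_pow, eval_C]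
    rw [e'] at this
    intro h0
    have h := congrArg S.red this
    simp only [map_mul, map_pow, map_add, h0, hd3, hn3, one_pow, mul_one, one_mul] at h
    have e2' : (S.red e ^ p) ^ 3 + S.red (qa z) * S.red e ^ p + S.red (qb z) =
        S.red ((cub (qa z) (qb z)).eval e) ^ p := by
      have e3 : (cub (qa z) (qb z)).eval e = e ^ 3 + qa z * e + qb z := by
        simp only [cub, eval_add, eval_mul, eval_pow, eval_X, eval_C]
      rw [e3, map_add, map_add, map_mul, map_pow, frob, frob, map_add, map_add, map_mul, map_pow, ← frob (S.red (qa z)),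
        ← frob (S.red (qb z)), haa, hbb]
    rw [e2'] at h
    have h5 : (S.red w) ^ 2 * S.red ((cub (qa z) (qb z)).eval e) ^ p ≠ 0 :=
      mul_ne_zero (pow_ne_zero 2 hw) (pow_ne_zero _ hcubr)
    apply h5
    rw [← h]; ring
  have hwrV : wr (n.map (algebraMap O K)) (d.map (algebraMap O K)) =
      C (algebraMap O K S.q) * M.map (algebraMap O K) := by
    rw [← wr_map, f5, Polynomial.map_mul, map_C]
  have hqK := S.aq_ne
  have hYV : io (wr (n.map (algebraMap O K)) (d.map (algebraMap O K))) /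
      io (C (algebraMap O K (S.q * w)) * (d.map (algebraMap O K)) ^ 2) =
      io (M.map (algebraMap O K)) / io (C (algebraMap O K w) * (d.map (algebraMap O K)) ^ 2) := by
    rw [hwrV]
    have e1 : io (C (algebraMap O K S.q)) ≠ 0 := io_ne (C_ne_zero.mpr hqK)
    have e2 : io (C (algebraMap O K w)) ≠ 0 := io_ne (C_ne_zero.mpr (inj0 _ hw0))
    have e3 := io_ne hdne
    rw [(algebraMap O K).map_mul, C_mul]
    simp only [map_mul io, map_pow io]
    field_simp
  rw [hYV] at ptV
  have hdV : (C (algebraMap O K w) * (d.map (algebraMap O K)) ^ 2).eval eK ≠ 0 := by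
    rw [eval_mul, eval_C, eval_pow, heK, evmE, ← map_pow, ← map_mul]
    exact inj0 _ (mul_ne_zero hw0 (pow_ne_zero 2 hd3'))
  have hdK3 : (d.map (algebraMap O K)).eval eK ≠ 0 := by rw [heK, evmE]; exact inj0 _ hd3'
  have hMK3 : (M.map (algebraMap O K)).eval eK ≠ 0 := by
    rw [heK, evmE]; exact inj0 _ (ne0 hM3)
  have hQ : Ker (ve K eK) P2 := by
    refine Or.inr ⟨_, _, pt2, ve_frac_gt ?_ ?_ ?_⟩
    · rw [heK, evmE]; exact inj0 _ hn2
    · rw [heK, evmE, hd2, map_zero]
    · intro h0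
      exact D2.2.1 (Polynomial.map_injective _ S.inj (by rw [h0, Polynomial.map_zero]))
  have pt1' : Pt P1 (io (X : K[X])) 1 := by
    have e1 : (wr (X : O[X]) 1) = 1 := by simp [wr]
    rw [e1] at pt1
    simpa using pt1
  have hX1 : ve K eK (io (X : K[X]) - io (C eK)) < 1 := by
    rw [← map_sub, ve_lt_iff]; simp
  have hTK : 3 * eK ^ 4 + 6 * algebraMap O K (qa z) * eK ^ 2 + 12 * algebraMap O K (qb z) * eK -
      algebraMap O K (qa z) ^ 2 = 0 := by
    have := congrArg (algebraMap O K) hT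
    simpa only [map_sub, map_add, map_mul, map_pow, map_ofNat, map_zero] using this
  have hfin := ker_comb (ve K eK) (ve_C K eK) hTK hF0 h2K hvF pt1' hX1 (map_one _) hQ r s ε hε h3r ptV
    (ve_frac_le hdK3) (ve_frac_one hMK3 hdV)
  have hεio : (ε : RatFunc K) = io (C (ε : K)) := by rw [map_intCast, map_intCast]
  rw [mul_one, hεio, ve_frac hdV, eval_mul, eval_C, eval_pow, heK, evmE, evmE] at hfin
  have hc3 : M.eval e = (ε : O) * (w * d.eval e ^ 2) := by
    apply S.inj
    simp only [map_mul, map_intCast, map_pow]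
    exact hfin
  have hc4 : S.red (M.eval e) = (ε : k) * S.red w := by
    rw [hc3, map_mul, map_mul, map_pow, hd3, map_intCast]; ring
  obtain ⟨ε0, hε0, hk1, hk2⟩ := key2 S (by omega) hq hy hcp hw u1 u2 u3' u4 u5 u6 u7
  refine ⟨ε0, hε0, by rw [← hq]; exact hk1, ?_⟩
  have h5 := congrArg (Polynomial.eval (S.red xT)) hk2
  rw [eval_map_apply, eval_comp, hLe, hc4, eval_mul, eval_C, eval_pow] at h5
  have h6 : (gs (S.red c)).eval (S.red xT) = S.red ((gs c).eval xT) := by
    simp only [gs, eval_mul, eval_add, eval_sub, eval_pow, eval_C, eval_X, eval_one, eval_ofNat, map_mul, map_add,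
      map_sub, map_pow, map_one, map_ofNat]
  rw [h6, map_mul] at h5
  apply mul_right_cancel₀ hw
  rw [h5]; ring

end Pool.Agent.H501
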