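import Pool.Agent.H501.K2.Lift
import Pool.Agent.H501.K2.I60
import Pool.Agent.H546.Trans

set_option autoImplicit false

/-!
# The Legendre polynomial at `7√-15 + 16√-3` modulo `p²`: the statement over a discrete valuation ring
-/

namespace Pool.Agent.H501

open Polynomial
open Pool.Agent.H546 (DV qa qb lg ndvd_fac small_ne form_ndvd)

/-- the symbol modulo `15` -/
theorem jac15 {p : ℕ} {x y : ℤ} (hxy : (p : ℤ) = x ^ 2 + 15 * y ^ 2) (hp : p % 15 = 1 ∨ p % 15 = 4) :
    ∃ ε : ℤ, (ε = 1 ∨ ε = -1) ∧ (3 : ℤ) ∣ x - ε ∧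
      jacobiSym x 15 = ε * (if p % 15 = 1 then 1 else -1) := by
  have hx : x % 15 = 0 ∨ x % 15 = 1 ∨ x % 15 = 2 ∨ x % 15 = 3 ∨ x % 15 = 4 ∨ x % 15 = 5 ∨ x % 15 = 6 ∨
      x % 15 = 7 ∨ x % 15 = 8 ∨ x % 15 = 9 ∨ x % 15 = 10 ∨ x % 15 = 11 ∨ x % 15 = 12 ∨ x % 15 = 13 ∨
      x % 15 = 14 := by omega
  have hsq : (p : ℤ) % 15 = (x % 15) ^ 2 % 15 := by
    rw [hxy, Int.add_mul_emod_self_left, pow_two, pow_two, Int.mul_emod]
  have hp' : (p : ℤ) % 15 = 1 ∨ (p : ℤ) % 15 = 4 := by omega
  have hj : jacobiSym x 15 = jacobiSym (x % 15) 15 := by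
    have := jacobiSym.mod_left x 15
    exact_mod_cast this
  rw [hj]
  have j1 : jacobiSym 1 15 = 1 := by norm_num
  have j2 : jacobiSym 2 15 = 1 := by norm_num
  have j4 : jacobiSym 4 15 = 1 := by norm_num
  have j7 : jacobiSym 7 15 = -1 := by norm_num
  have j8 : jacobiSym 8 15 = 1 := by norm_num
  have j11 : jacobiSym 11 15 = -1 := by norm_num
  have j13 : jacobiSym 13 15 = -1 := by norm_num
  have j14 : jacobiSym 14 15 = -1 := by norm_num
  rcases hx with h | h | h | h | h | h | h | h | h | h | h | h | h | h | h <;> rw [h] at hsq ⊢ <;>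
    norm_num at hsq
  all_goals first
    | (exfalso; omega)
    | skip
  · exact ⟨1, Or.inl rfl, by omega, by rw [if_pos (by omega), j1]; norm_num⟩
  · exact ⟨-1, Or.inr rfl, by omega, by rw [if_neg (by omega), j2]; norm_num⟩
  · exact ⟨1, Or.inl rfl, by omega, by rw [if_pos (by omega), j4]; norm_num⟩
  · exact ⟨1, Or.inl rfl, by omega, by rw [if_neg (by omega), j7]; norm_num⟩
  · exact ⟨-1, Or.inr rfl, by omega, by rw [if_neg (by omega), j8]; norm_num⟩
  · exact ⟨-1, Or.inr rfl, by omega, by rw [if_pos (by omega), j11]; norm_num⟩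
  · exact ⟨1, Or.inl rfl, by omega, by rw [if_neg (by omega), j13]; norm_num⟩
  · exact ⟨-1, Or.inr rfl, by omega, by rw [if_pos (by omega), j14]; norm_num⟩

/-- the character of the quadratic extension generated by the fifth roots of unity -/
theorem char5 {k : Type*} [Field k] [IsAlgClosed k] {p : ℕ} [hp : Fact p.Prime] [CharP k p] (hp2 : p ≠ 2)
    (hp5 : p ≠ 5) {s5 : k} (h5 : s5 ^ 2 = 5) (hp15 : p % 5 = 1 ∨ p % 5 = 4) {δ : k} (hδ : 2 * δ = -(5 + s5)) :
    δ ^ ((p - 1) / 2) = if p % 5 = 1 then 1 else -1 := by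
  have h2 : (2 : k) ≠ 0 := by
    intro h0
    have : ((2 : ℕ) : k) = 0 := by exact_mod_cast h0
    rw [CharP.cast_eq_zero_iff k p] at this
    exact hp2 ((Nat.prime_dvd_prime_iff_eq hp.out Nat.prime_two).mp this)
  have h5k : (5 : k) ≠ 0 := by
    intro h0
    have : ((5 : ℕ) : k) = 0 := by exact_mod_cast h0
    rw [CharP.cast_eq_zero_iff k p] at this
    exact hp5 ((Nat.prime_dvd_prime_iff_eq hp.out Nat.prime_five).mp this)
  obtain ⟨w1, hw1⟩ := IsAlgClosed.exists_pow_nat_eq δ (n := 2) (by norm_num)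
  -- `w1 = ζ - ζ⁻¹`, `a = ζ + ζ⁻¹`
  set a : k := (s5 - 1) / 2 with ha
  have ha' : 2 * a = s5 - 1 := by rw [ha]; field_simp
  set ζ : k := (a + w1) / 2 with hζ
  have hζ' : 2 * ζ = a + w1 := by rw [hζ]; field_simp
  set ξ : k := (a - w1) / 2 with hξ
  have hξ' : 2 * ξ = a - w1 := by rw [hξ]; field_simp
  have h4 : (2 : k) * 2 ≠ 0 := mul_ne_zero h2 h2
  have hζξ : ζ * ξ = 1 := by
    have h16 : (2 : k) * 2 * (2 * 2) ≠ 0 := mul_ne_zero h4 h4
    apply mul_left_cancel₀ h16
    linear_combination (4 * 2 * ξ) * hζ' + 4 * (a + w1) * hξ' - 4 * hw1 - 2 * hδ + (2 * a + s5 - 1) * ha' + h5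
  have hq : a ^ 2 + a - 1 = 0 := by
    apply mul_left_cancel₀ h4
    linear_combination (2 * a + s5 - 1 + 2) * ha' + h5
  have hsum : ζ + ξ = a := by
    apply mul_left_cancel₀ h2
    linear_combination hζ' + hξ'
  have hz5 : ζ ^ 5 = 1 := by
    have e1 : ζ ^ 2 = a * ζ - 1 := by linear_combination (ζ) * hsum - hζξ
    have e2 : ζ ^ 4 + ζ ^ 3 + ζ ^ 2 + ζ + 1 = 0 := by
      have : ζ ^ 4 + ζ ^ 3 + ζ ^ 2 + ζ + 1 = ζ ^ 2 * (a ^ 2 + a - 1) + (ζ ^ 2 - a * ζ + 1) * (ζ ^ 2 + (a + 1) * ζ + 1) := by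
        ring
      rw [this, hq, e1]; ring
    linear_combination (ζ - 1) * e2
  have hx5 : ξ ^ 5 = 1 := by
    have : (ζ * ξ) ^ 5 = 1 := by rw [hζξ, one_pow]
    rw [mul_pow, hz5, one_mul] at this
    exact this
  have hw : w1 = ζ - ξ := by
    apply mul_left_cancel₀ h2
    linear_combination -hζ' + hξ'
  have hw0 : w1 ≠ 0 := by
    rintro rfl
    have h1 : δ = 0 := by rw [← hw1]; ring
    rw [h1, mul_zero] at hδ
    have h6 : s5 = -5 := by linear_combination hδ
    rw [h6] at h5
    have h20 : (5 : k) * (2 * 2) = 0 := by linear_combination h5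
    exact mul_ne_zero h5k h4 h20
  have hodd : 2 * ((p - 1) / 2) = p - 1 := by
    have h1 := hp.out.eq_two_or_odd
    omega
  have hp0 := hp.out.pos
  have key : δ ^ ((p - 1) / 2) * w1 = w1 ^ p := by
    rw [← hw1, ← pow_mul, hodd, ← pow_succ, Nat.sub_add_cancel hp0]
  have hwp : w1 ^ p = ζ ^ p - ξ ^ p := by rw [hw, sub_pow_char]
  have hmod : ∀ u : k, u ^ 5 = 1 → u ^ p = u ^ (p % 5) := by
    intro u hu
    conv_lhs => rw [← Nat.mod_add_div p 5, pow_add, pow_mul, hu, one_pow, mul_one]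
  rcases hp15 with h | h
  · rw [if_pos h]
    apply mul_right_cancel₀ hw0
    rw [key, hwp, hmod ζ hz5, hmod ξ hx5, h, pow_one, pow_one, one_mul, hw]
  · rw [if_neg (by omega)]
    apply mul_right_cancel₀ hw0
    have e1 : ζ ^ 4 = ξ := by linear_combination (-ζ ^ 4) * hζξ + ξ * hz5
    have e2 : ξ ^ 4 = ζ := by linear_combination (-ξ ^ 4) * hζξ + ζ * hx5
    rw [key, hwp, hmod ζ hz5, hmod ξ hx5, h, e1, e2, hw]; ring

variable {O K k : Type*} [CommRing O] [IsDomain O] [Field K] [Algebra O K] [Field k]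
  (S : DV O K k)

set_option maxHeartbeats 1000000 in
/-- **The congruence over a discrete valuation ring.** -/
theorem main60 {p : ℕ} [hp : Fact p.Prime] [CharP k p] [IsAlgClosed k] (hp15 : p % 15 = 1 ∨ p % 15 = 4)
    (hq : S.q = (p : O)) {s t h : O} (hs : s ^ 2 = -15) (ht : t ^ 2 = -3) (hsp : S.red s ^ p = S.red s)
    (htp : S.red t ^ p = S.red t) (hh : 2 * h = 1) {x y : ℤ} (hxy : (p : ℤ) = x ^ 2 + 15 * y ^ 2)
    {u : O} (hu : 2 * x * u = p) {χ : ℤ} (hχ : χ = 1 ∨ χ = -1)
    (hχs : (χ : k) = (-S.red s) ^ ((p - 1) / 2)) :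
    (p : O) ^ 2 ∣ lg ((p - 1) / 2) (h * (1 - (7 * s + 16 * t))) - χ * jacobiSym x 15 * (2 * x - u) := by
  have hpp := hp.out
  have hne : p ≠ 2 ∧ p ≠ 3 ∧ p ≠ 5 ∧ p ≠ 7 ∧ p ≠ 11 ∧ p ≠ 29 ∧ p ≠ 41 ∧ p ≠ 59 := by
    refine ⟨?_, ?_, ?_, ?_, ?_, ?_, ?_, ?_⟩ <;> rintro rfl <;> norm_num at hp15
  obtain ⟨n2, n3, n5, n7, n11, n29, n41, n59⟩ := hne
  have hp18 : 18 < p := by
    by_contra hcon
    have h1 : p ∈ Finset.range 19 := Finset.mem_range.mpr (by omega)
    have h2 : ∀ q ∈ Finset.range 19, q.Prime → ¬ (q % 15 = 1 ∨ q % 15 = 4) := by decide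
    exact h2 p h1 hpp hp15
  have r2 : S.red (2 : O) ≠ 0 := by
    rw [map_ofNat]
    have := small_ne (k := k) (p := p) (n := 2) (by norm_num) (by omega)
    exact_mod_cast this
  have r3 : S.red (3 : O) ≠ 0 := by
    rw [map_ofNat]
    have := small_ne (k := k) (p := p) (n := 3) (by norm_num) (by omega)
    exact_mod_cast this
  have r11 : S.red (11 : O) ≠ 0 := by
    rw [map_ofNat]
    have := small_ne (k := k) (p := p) (n := 11) (by norm_num) (by omega)
    exact_mod_cast this
  obtain ⟨i3, hi3⟩ := (S.unit_of_red r3).exists_left_inv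
  obtain ⟨i11, hi11⟩ := (S.unit_of_red r11).exists_left_inv
  set s5 : O := -(s * t) * i3 with hs5
  have h3s5 : 3 * s5 = -(s * t) := by rw [hs5]; linear_combination (-(s * t)) * hi3
  have h5 : s5 ^ 2 = 5 := by
    have h9 : (3 * i3 : O) ^ 2 = 1 := by rw [mul_comm, hi3, one_pow]
    rw [hs5]
    have : (-(s * t) * i3) ^ 2 = (s ^ 2 * t ^ 2) * i3 ^ 2 := by ring
    rw [this, hs, ht]
    linear_combination 5 * h9
  have hst : s5 * t = s := by
    have h3O : (3 : O) ≠ 0 := by intro h0; rw [h0, map_zero] at r3; exact r3 rfl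
    apply mul_left_cancel₀ h3O
    linear_combination t * h3s5 - s * ht
  set c : O := 7 * s + 16 * t with hc
  set z : O := i3 * i11 ^ 2 * (-501 + 224 * s5) with hz
  have h363 : 363 * z = -501 + 224 * s5 := by
    rw [hz]
    linear_combination (-501 + 224 * s5) * (121 * i11 ^ 2 * hi3 + (11 * i11 + 1) * hi11)
  have e363 : i3 * i11 ^ 2 * 363 = 1 := by
    linear_combination 121 * i11 ^ 2 * hi3 + (11 * i11 + 1) * hi11
  have hcz : c ^ 2 * z = 1 := by
    have h1 : c ^ 2 = -1503 - 672 * s5 := by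
      rw [hc]
      linear_combination 49 * hs + 256 * ht + 224 * (-t * hst + s5 * ht)
    rw [h1, hz]
    linear_combination (-150528 * i3 * i11 ^ 2) * h5 + e363
  set VT : O := i3 * i11 * (134 - 60 * s5) with hVT
  have h33 : 33 * VT = 134 - 60 * s5 := by
    rw [hVT]; linear_combination (134 - 60 * s5) * (11 * i11 * hi3 + hi11)
  set α : O := 18 * c * z with hα
  have hαc : α * c = 18 := by rw [hα]; linear_combination 18 * hcz
  set xT : O := VT * c * h with hxT
  have hαx : α * xT = 9 * VT := by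
    rw [hα, hxT]; linear_combination (18 * h * VT) * hcz + 9 * VT * hh
  set yy : O := h * (1 - c) with hyy
  have hcy : c = 1 - 2 * yy := by rw [hyy]; linear_combination (1 - c) * hh
  -- the Frobenius
  have hcp : S.red c ^ p = S.red c := by
    rw [hc]
    have frob : ∀ x : k, x ^ p = frobenius k p x := fun x => rfl
    rw [map_add, map_mul, map_mul, frob, map_add, map_mul, map_mul, ← frob (S.red s), ← frob (S.red t), hsp, htp]
    simp only [map_ofNat]
  -- nonvanishing
  have nd : ∀ l : List (ℕ × ℕ), (∀ q ∈ l, q.1.Prime ∧ p ≠ q.1) → ∀ {n : ℤ},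
      n.natAbs = (l.map fun q => q.1 ^ q.2).prod → ¬ (p : ℤ) ∣ n := fun l hl _ hn => ndvd_fac l hl hn
  have hz1 : S.red (1 - z) ≠ 0 := by
    refine S.ne_mul (y := 363 * (864 + 224 * s5)) (n := 495616) ?_
      (nd [(2, 12), (11, 2)] (by
        intro q hq
        simp only [List.mem_cons, List.mem_nil_iff, or_false] at hq
        rcases hq with rfl | rfl
        · exact ⟨by norm_num, n2⟩
        · exact ⟨by norm_num, n11⟩) (by decide +kernel))
    push_cast
    linear_combination (-(864 + 224 * s5)) * h363 - 50176 * h5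
  have ha0 : S.red (qa z) ≠ 0 := by
    refine S.ne_mul (y := 363 * (-319140 - 72576 * s5)) (n := 75513960720) ?_
      (nd [(2, 4), (3, 8), (5, 1), (11, 2), (29, 1), (41, 1)] (by
        intro q hq
        simp only [List.mem_cons, List.mem_nil_iff, or_false] at hq
        rcases hq with rfl | rfl | rfl | rfl | rfl | rfl
        · exact ⟨by norm_num, n2⟩
        · exact ⟨by norm_num, n3⟩
        · exact ⟨by norm_num, n5⟩
        · exact ⟨by norm_num, n11⟩
        · exact ⟨by norm_num, n29⟩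
        · exact ⟨by norm_num, n41⟩) (by decide +kernel))
    simp only [qa]
    push_cast
    linear_combination (324 * (-319140 - 72576 * s5)) * h363 - 5267275776 * h5
  have hb0 : S.red (qb z) ≠ 0 := by
    refine S.ne_mul (y := 363 * (-3202416 - 870912 * s5)) (n := 6463029678336) ?_
      (nd [(2, 8), (3, 8), (7, 2), (11, 3), (59, 1)] (by
        intro q hq
        simp only [List.mem_cons, List.mem_nil_iff, or_false] at hq
        rcases hq with rfl | rfl | rfl | rfl | rfl
        · exact ⟨by norm_num, n2⟩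
        · exact ⟨by norm_num, n3⟩
        · exact ⟨by norm_num, n7⟩
        · exact ⟨by norm_num, n11⟩
        · exact ⟨by norm_num, n59⟩) (by decide +kernel))
    simp only [qb]
    push_cast
    linear_combination (3888 * (-3202416 - 870912 * s5)) * h363 - 758487711744 * h5
  -- the point of order three
  have hT : 3 * (9 * VT - 12) ^ 4 + 6 * qa z * (9 * VT - 12) ^ 2 + 12 * qb z * (9 * VT - 12) - qa z ^ 2 = 0 := by
    have h11O : (11 : O) ≠ 0 := by intro h0; rw [h0, map_zero] at r11; exact r11 rfl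
    have e1 : 11 * (9 * VT - 12) = 270 - 180 * s5 := by linear_combination 3 * h33
    have h3O : (3 : O) ≠ 0 := by intro h0; rw [h0, map_zero] at r3; exact r3 rfl
    have e2 : 121 * qa z = -106380 + 24192 * s5 := by
      simp only [qa]
      linear_combination 108 * h363
    have e3 : 121 * qb z = -1067472 + 290304 * s5 := by
      simp only [qb]
      linear_combination 1296 * h363
    apply mul_left_cancel₀ (pow_ne_zero 4 h11O)
    set E := 11 * (9 * VT - 12) with hE
    have : 11 ^ 4 * (3 * (9 * VT - 12) ^ 4 + 6 * qa z * (9 * VT - 12) ^ 2 + 12 * qb z * (9 * VT - 12) - qa z ^ 2) =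
        3 * E ^ 4 + 6 * (121 * qa z) * E ^ 2 + 12 * 11 * (121 * qb z) * E - (121 * qa z) ^ 2 := by
      rw [hE]; ring
    rw [this, e1, e2, e3, mul_zero]
    have q4 : s5 ^ 4 = 25 := by rw [show s5 ^ 4 = (s5 ^ 2) ^ 2 by ring, h5]; norm_num
    have q3 : s5 ^ 3 = 5 * s5 := by rw [show s5 ^ 3 = s5 ^ 2 * s5 by ring, h5]
    ring_nf
    rw [q4, q3, h5]
    ring
  -- the quadratic character of the point
  set δ : O := -(h * (5 + s5)) with hδ
  have h2δ : 2 * δ = -(5 + s5) := by rw [hδ]; linear_combination (-(5 + s5)) * hh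
  have hgδ : 9 * ((gs c).eval xT * δ) = -(16 * s) := by
    have h2O : (2 : O) ≠ 0 := by intro h0; rw [h0, map_zero] at r2; exact r2 rfl
    have e2 : 2 * xT = VT * c := by rw [hxT]; linear_combination (VT * c) * hh
    have e4 : (gs c).eval xT = xT * (1 - 2 * c * xT + xT ^ 2) := by
      simp only [gs, eval_mul, eval_add, eval_sub, eval_pow, eval_C, eval_X, eval_one]
    have h33O : (33 : O) ≠ 0 := by
      have : S.red (33 : O) ≠ 0 := by
        have e : (33 : O) = 3 * 11 := by norm_num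
        rw [e, map_mul]; exact mul_ne_zero r3 r11
      intro h0; rw [h0, map_zero] at this; exact this rfl
    have hcc : c ^ 2 = -1503 - 672 * s5 := by
      rw [hc]
      linear_combination 49 * hs + 256 * ht + 224 * (-t * hst + s5 * ht)
    -- `66 xT = (134 - 60 s5) c`
    have e66 : 66 * xT = (134 - 60 * s5) * c := by linear_combination 33 * e2 + c * h33
    have hc' : c = t * (7 * s5 + 16) := by rw [hc]; linear_combination -7 * hst
    have h66 : (66 : O) ≠ 0 := by
      have e : (66 : O) = 2 * 33 := by norm_num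
      rw [e]; exact mul_ne_zero h2O h33O
    apply mul_left_cancel₀ (pow_ne_zero 3 h66)
    apply mul_left_cancel₀ h2O
    have e7 : 2 * (66 ^ 3 * (9 * ((gs c).eval xT * δ))) =
        9 * (66 * xT) * (66 ^ 2 - 2 * 66 * c * (66 * xT) + (66 * xT) ^ 2) * (2 * δ) := by
      rw [e4]; ring
    rw [e7, e66, h2δ]
    have e8 : 9 * ((134 - 60 * s5) * c) * (66 ^ 2 - 2 * 66 * c * ((134 - 60 * s5) * c) + ((134 - 60 * s5) * c) ^ 2) *
        -(5 + s5) = 9 * (134 - 60 * s5) * c * (66 ^ 2 + c ^ 2 * ((134 - 60 * s5) ^ 2 - 132 * (134 - 60 * s5))) *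
        -(5 + s5) := by ring
    rw [e8, hcc, hc', ← hst]
    have q3 : s5 ^ 3 = 5 * s5 := by rw [show s5 ^ 3 = s5 ^ 2 * s5 by ring, h5]
    have q4 : s5 ^ 4 = 25 := by rw [show s5 ^ 4 = (s5 ^ 2) ^ 2 by ring, h5]; norm_num
    have q5 : s5 ^ 5 = 25 * s5 := by rw [show s5 ^ 5 = (s5 ^ 2) ^ 2 * s5 by ring, h5]; norm_num
    have q6 : s5 ^ 6 = 125 := by rw [show s5 ^ 6 = (s5 ^ 2) ^ 3 by ring, h5]; norm_num
    ring_nf
    simp only [h5, q3, q4, q5, q6]
    ring
  clear_value δ
  have hs0 : S.red s ≠ 0 := by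
    intro h0
    have h1 := congrArg S.red hs
    rw [map_pow, h0, map_neg, map_ofNat] at h1
    have h15 : (15 : k) ≠ 0 := by
      have := small_ne (k := k) (p := p) (n := 15) (by norm_num) (by omega)
      exact_mod_cast this
    apply h15
    linear_combination h1
  have h16 : (16 : k) ≠ 0 := by
    have := small_ne (k := k) (p := p) (n := 16) (by norm_num) (by omega)
    exact_mod_cast this
  have hgT : S.red ((gs c).eval xT) ≠ 0 := by
    intro h0
    have h1 := congrArg S.red hgδ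
    rw [map_mul, map_mul, h0, zero_mul, mul_zero, map_neg, map_mul, map_ofNat] at h1
    exact mul_ne_zero h16 hs0 (by linear_combination h1)
  have hχG : (χ : k) = S.red ((gs c).eval xT) ^ ((p - 1) / 2) * (if p % 15 = 1 then 1 else -1) := by
    have hp5 : p % 5 = 1 ∨ p % 5 = 4 := by omega
    have h5r : S.red s5 ^ 2 = 5 := by rw [← map_pow, h5, map_ofNat]
    have h2r : 2 * S.red δ = -(5 + S.red s5) := by
      have := congrArg S.red h2δ
      simpa only [map_mul, map_neg, map_add, map_ofNat] using this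
    have hc5 := char5 (k := k) (p := p) n2 n5 h5r hp5 h2r
    have hif : (if p % 5 = 1 then (1 : k) else -1) = if p % 15 = 1 then 1 else -1 := by
      by_cases h1 : p % 15 = 1
      · rw [if_pos h1, if_pos (by omega)]
      · rw [if_neg h1, if_neg (by omega)]
    rw [hif] at hc5
    rw [← hc5, ← mul_pow, hχs]
    have h1 := congrArg S.red hgδ
    rw [map_mul, map_mul, map_neg, map_mul, map_ofNat, map_ofNat] at h1
    have hodd : 2 * ((p - 1) / 2) = p - 1 := by
      have h1 := hp.out.eq_two_or_odd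
      omega
    have sq1 : ∀ n : ℕ, 0 < n → n < p → ((n : k) ^ 2) ^ ((p - 1) / 2) = 1 := by
      intro n hn0 hn
      have hnk := small_ne (k := k) (p := p) hn0 hn
      rw [← pow_mul, hodd]
      apply mul_right_cancel₀ hnk
      rw [← pow_succ, Nat.sub_add_cancel hpp.pos, one_mul]
      have h := frobenius_def (R := k) p (n : k)
      rw [← h, map_natCast]
    have s9 : (9 : k) ^ ((p - 1) / 2) = 1 := by
      have := sq1 3 (by norm_num) (by omega)
      rw [show (9 : k) = ((3 : ℕ) : k) ^ 2 by norm_num]; exact this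
    have s16 : (16 : k) ^ ((p - 1) / 2) = 1 := by
      have := sq1 4 (by norm_num) (by omega)
      rw [show (16 : k) = ((4 : ℕ) : k) ^ 2 by norm_num]; exact this
    have h2 := congrArg (fun x => x ^ ((p - 1) / 2)) h1
    rw [mul_pow 9, s9, one_mul, show -(16 * S.red s) = 16 * (-S.red s) by ring, mul_pow 16, s16, one_mul] at h2
    exact h2.symm
  -- the two cases
  obtain ⟨ε, hε, h3x, hJ⟩ := jac15 hxy hp15
  have hxyO : (p : O) = (x : O) ^ 2 + 15 * (y : O) ^ 2 := by
    have := congrArg (Int.cast : ℤ → O) hxy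
    push_cast at this; exact this
  have hq0 : (p : O) ≠ 0 := by rw [← hq]; exact S.q_ne
  have main : ∀ y : ℤ, (p : ℤ) = x ^ 2 + 15 * y ^ 2 → S.red ((x : O) + y * s) = 0 →
      (p : O) = (x : O) ^ 2 + 15 * (y : O) ^ 2 →
      (p : O) ^ 2 ∣ lg ((p - 1) / 2) yy - χ * jacobiSym x 15 * (2 * x - u) := by
    intro y hxy hr hxyO
    obtain ⟨w, hw⟩ := (S.red_iff _).mp hr
    rw [hq] at hw
    have hw1 : w * ((x : O) - y * s) = 1 := by
      apply mul_left_cancel₀ hq0
      linear_combination (-((x : O) - y * s)) * hw - (y : O) ^ 2 * hs - hxyO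
    have hwr : S.red w ≠ 0 := by
      intro h0
      have := congrArg S.red hw1
      rw [map_mul, h0, zero_mul, map_one] at this
      exact zero_ne_one this
    have n15 : ¬ (p : ℤ) ∣ 15 := nd [(3, 1), (5, 1)] (by
        intro q hq
        simp only [List.mem_cons, List.mem_nil_iff, or_false] at hq
        rcases hq with rfl | rfl
        · exact ⟨by norm_num, n3⟩
        · exact ⟨by norm_num, n5⟩) (by decide +kernel)
    have n1 : ¬ (p : ℤ) ∣ 1 := by
      intro h1
      have := Int.le_of_dvd (by norm_num) h1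
      omega
    have hpx : ¬ (p : ℤ) ∣ x := form_ndvd (r := x) (s := y) (l1 := 1) (l2 := 15) (t0 := 0) (by rw [hxy]; ring) n15
    have hpy : ¬ (p : ℤ) ∣ y := form_ndvd (r := y) (s := x) (l1 := 15) (l2 := 1) (t0 := 0) (by rw [hxy]; ring) n1
    have hs0' : s ≠ 0 := by rintro rfl; rw [map_zero] at hs0; exact hs0 rfl
    obtain ⟨nn, dd, hD, hd0, hn0⟩ := I60.psi S (p := p) n2 n3 n5 n11 h5 ht
      (z := z) (by linear_combination 4 * h363) hs h33
    obtain ⟨ε0, hε0, hk1, hk2⟩ := lift2 S (p := p) (by omega) hq hcz hαc hcy hcp hz1 ha0 hb0 (m2 := s) (l2 := 15)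
      hs0' (by norm_num) ⟨nn, dd, hD, hd0, hn0⟩ hT hαx hgT x y ε hε h3x (by rw [hxy]; push_cast; ring) hpx hpy
      (by nlinarith) hw hwr
    -- the sign
    have hsgn : ε0 = (χ : O) * jacobiSym x 15 := by
      rw [hJ]
      set G := S.red ((gs c).eval xT) ^ ((p - 1) / 2) with hG
      have h2k : (2 : k) ≠ 0 := by rwa [map_ofNat] at r2
      have hη : ∀ η : ℤ, (η = 1 ∨ η = -1) → (χ : k) = G * (η : k) → ε0 = (χ : O) * ((ε * η : ℤ) : O) := by
        intro η hη hχG
        have e1 : S.red ε0 = ((χ * (ε * η) : ℤ) : k) := by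
          have h1 : (χ : k) * S.red ε0 = (ε : k) * (η : k) := by
            rw [hχG, hk2]; ring
          have h2 : (χ : k) ^ 2 = 1 := by rcases hχ with h | h <;> rw [h] <;> simp
          push_cast
          linear_combination (χ : k) * h1 - S.red ε0 * h2
        have hv : χ * (ε * η) = 1 ∨ χ * (ε * η) = -1 := by
          rcases hχ with rfl | rfl <;> rcases hε with rfl | rfl <;> rcases hη with rfl | rfl <;> simp
        have e2 : ε0 = ((χ * (ε * η) : ℤ) : O) := by
          rcases hε0 with rfl | rfl <;> rcases hv with h | h <;> rw [h] at e1 ⊢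
          · simp
          · exfalso
            rw [map_one] at e1
            push_cast at e1
            apply h2k; linear_combination e1
          · exfalso
            rw [map_neg, map_one] at e1
            push_cast at e1
            apply h2k; linear_combination -e1
          · simp
        rw [e2]; push_cast; ring
      by_cases h1 : p % 15 = 1
      · rw [if_pos h1] at hχG ⊢
        exact hη 1 (Or.inl rfl) (by rw [hχG]; simp)
      · rw [if_neg h1] at hχG ⊢
        exact hη (-1) (Or.inr rfl) (by rw [hχG]; simp)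
    -- the value
    have hε2 : ε0 ^ 2 = 1 := by rcases hε0 with h | h <;> rw [h] <;> ring
    have h2x : S.red (2 * (x : O)) ≠ 0 := by
      rw [map_mul, map_intCast]
      refine mul_ne_zero r2 fun h0 => hpx ((CharP.intCast_eq_zero_iff k p x).mp h0)
    obtain ⟨ix, hix⟩ := (S.unit_of_red h2x).exists_left_inv
    obtain ⟨g, hg⟩ := hk1
    have h7 : p * w - u = p ^ 2 * (ix * w ^ 2) := by
      have h8 : 2 * (x : O) * (p * w - u) = p ^ 2 * w ^ 2 := by
        linear_combination (p : O) * hw1 + (p * w) * hw - hu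
      linear_combination ix * h8 - (p * w - u) * hix
    refine ⟨ε0 * ((x : O) - y * s) * g - ε0 * (ix * w ^ 2), ?_⟩
    rw [← hsgn]
    linear_combination (ε0 * ((x : O) - y * s)) * hg - ε0 ^ 2 * (lg ((p - 1) / 2) yy) * hw1 -
      (lg ((p - 1) / 2) yy) * hε2 - ε0 * hw - ε0 * h7
  have h0 : S.red ((x : O) + y * s) * S.red ((x : O) + ((-y : ℤ) : O) * s) = 0 := by
    rw [← map_mul]
    have : ((x : O) + y * s) * ((x : O) + ((-y : ℤ) : O) * s) = S.q := by
      rw [hq]; push_cast; linear_combination (-(y : O) ^ 2) * hs - hxyO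
    rw [this, S.red_q]
  rcases mul_eq_zero.mp h0 with h1 | h1
  · exact main y hxy h1 hxyO
  · exact main (-y) (by rw [hxy]; ring) h1 (by rw [hxyO]; push_cast; ring)

end Pool.Agent.H501
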