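import Pool.Agent.H501.K2.Uniq
import Pool.Agent.H546.QMod

set_option autoImplicit false

/-!
# The symmetry `x ↦ 1/x`
-/

namespace Pool.Agent.H501

open Polynomial
open Pool.Agent.H546 (wr wr_reflect DV)

section refl

variable {R : Type*} [CommRing R]

theorem gs_reflect (c : R) : reflect 4 (gs c) = gs c := by
  have e : gs c = C 1 * X ^ 1 + (C (-(2 * c)) * X ^ 2 + C 1 * X ^ 3) := by
    unfold gs; simp only [C_1, map_neg]; ring
  rw [e, reflect_add, reflect_add, reflect_C_mul_X_pow, reflect_C_mul_X_pow, reflect_C_mul_X_pow,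
    revAt_le (by norm_num), revAt_le (by norm_num), revAt_le (by norm_num)]
  simp only [C_1, map_neg]
  ring

theorem wr_deg {n : ℕ} {N D : R[X]} (hN : N.natDegree ≤ n) (hD : D.natDegree < n) :
    (wr N D).natDegree ≤ 2 * n - 2 := by
  rw [wr]
  refine (natDegree_sub_le _ _).trans (max_le ?_ ?_)
  · refine natDegree_mul_le.trans ?_
    have := natDegree_derivative_le N
    omega
  · by_cases h : D.natDegree = 0
    · have : derivative D = 0 := by
        rw [natDegree_eq_zero] at h
        obtain ⟨a, rfl⟩ := h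
        exact derivative_C
      rw [this, mul_zero, natDegree_zero]; exact Nat.zero_le _
    · refine natDegree_mul_le.trans ?_
      have := natDegree_derivative_lt h
      omega

theorem ode_reflect {n : ℕ} (hn : 1 ≤ n) {c m : R} {N D : R[X]} (hN : N.natDegree ≤ n) (hD : D.natDegree < n)
    (ode : gs c * wr N D ^ 2 = C m ^ 2 * hs c N D) :
    gs c * wr (reflect n D) (reflect n N) ^ 2 = C m ^ 2 * hs c (reflect n D) (reflect n N) := by
  have hw := wr_deg hN hD
  have h1 := wr_reflect (q := (1 : R)) hn hN hD.le hw (by rw [C_1, one_mul])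
  rw [C_1, one_mul] at h1
  rw [h1]
  set M := wr N D with hM
  have hgd : (gs c).natDegree ≤ 4 := by
    have e : gs c = X - C (2 * c) * X ^ 2 + X ^ 3 := by unfold gs; ring
    rw [e]; compute_degree!
  have hM2 : (M ^ 2).natDegree ≤ (2 * n - 2) + (2 * n - 2) := by
    rw [pow_two]
    exact natDegree_mul_le.trans (by omega)
  have l1 := reflect_mul (gs c) (M ^ 2) hgd hM2
  have l2 := reflect_mul M M hw hw
  rw [← pow_two] at l2
  rw [l2, gs_reflect] at l1
  have hDp : D.natDegree ≤ n := hD.le
  have r1 := reflect_mul N N hN hN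
  have d1 : (N * N).natDegree ≤ n + n := natDegree_mul_le.trans (by omega)
  have r2 := reflect_mul (N * N) N d1 hN
  have r3 := reflect_mul (N * N) D d1 hDp
  have r4 := reflect_mul N D hN hDp
  have d2 : (N * D).natDegree ≤ n + n := natDegree_mul_le.trans (by omega)
  have r5 := reflect_mul (N * D) D d2 hDp
  have d3 : (N * N * N - C (2 * c) * (N * N * D) + N * D * D).natDegree ≤ n + n + n := by
    have a1 : (N * N * N).natDegree ≤ n + n + n := natDegree_mul_le.trans (by omega)
    have a2 : (N * N * D).natDegree ≤ n + n + n := natDegree_mul_le.trans (by omega)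
    have a3 : (N * D * D).natDegree ≤ n + n + n := natDegree_mul_le.trans (by omega)
    refine (natDegree_add_le _ _).trans (max_le ((natDegree_sub_le _ _).trans (max_le a1 ?_)) a3)
    exact (natDegree_C_mul_le _ _).trans a2
  have r6 := reflect_mul D _ hDp d3
  have r7 : reflect (n + n + n) (N * N * N - C (2 * c) * (N * N * D) + N * D * D) =
      reflect (n + n + n) (N * N * N) - C (2 * c) * reflect (n + n + n) (N * N * D) +
        reflect (n + n + n) (N * D * D) := by
    rw [← reflect_C_mul]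
    ext i; simp [coeff_reflect]
  rw [r7, r2, r3, r5, r1, r4] at r6
  have hm2 : (C m ^ 2 : R[X]) = C (m ^ 2) := by rw [C_pow]
  have e1 : gs c * M ^ 2 = C (m ^ 2) * (D * (N * N * N - C (2 * c) * (N * N * D) + N * D * D)) := by
    rw [ode, hm2]
    unfold hs
    ring
  rw [e1, reflect_C_mul, show 4 + (2 * n - 2 + (2 * n - 2)) = n + (n + n + n) by omega, r6] at l1
  rw [hm2, hs]
  linear_combination -l1

end refl

variable {O K k : Type*} [CommRing O] [IsDomain O] [Field K] [Algebra O K] [Field k]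
  (S : DV O K k)

/-- the leading coefficients of numerator and denominator -/
theorem lead_sq [CharZero O] {p : ℕ} [hp : Fact p.Prime] {c m : O} (hm : m ≠ 0)
    {N D : O[X]} (hN : N.map S.red = X ^ p) (hD : D.map S.red = 1) (hNd : N.natDegree ≤ p)
    (hDd : D.natDegree < p) (hN0 : N.coeff 0 = 0) (ode : gs c * wr N D ^ 2 = C m ^ 2 * hs c N D) :
    S.q ^ 2 ∣ N.coeff p ^ 2 - D.coeff 0 ^ 2 := by
  have hp0 := hp.out.pos
  have hNi : ∀ i, i ≠ p → S.q ∣ N.coeff i := by
    intro i hi
    rw [← S.red_iff, ← coeff_map, hN, coeff_X_pow, if_neg hi]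
  have hDi : ∀ i, i ≠ 0 → S.q ∣ D.coeff i := by
    intro i hi
    rw [← S.red_iff, ← coeff_map, hD, coeff_one, if_neg hi]
  have hNp : S.red (N.coeff p) = 1 := by rw [← coeff_map, hN, coeff_X_pow, if_pos rfl]
  have hD0 : S.red (D.coeff 0) = 1 := by rw [← coeff_map, hD, coeff_one_zero]
  have ne : ∀ {x : O}, S.red x = 1 → x ≠ 0 := by
    rintro x hx rfl
    rw [map_zero] at hx
    exact zero_ne_one hx
  have hNne : N ≠ 0 := by rintro rfl; exact ne hNp (by simp)
  have hrN0 : (reflect p N).coeff 0 = N.coeff p := by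
    rw [coeff_reflect, revAt_le (Nat.zero_le _), Nat.sub_zero]
  have hrD0 : (reflect p D).coeff 0 = 0 := by
    rw [coeff_reflect, revAt_le (Nat.zero_le _), Nat.sub_zero]
    exact coeff_eq_zero_of_natDegree_lt hDd
  have hrDp : (reflect p D).coeff p = D.coeff 0 := by
    rw [coeff_reflect, revAt_le le_rfl, Nat.sub_self]
  have hrDne : reflect p D ≠ 0 := by
    intro h0
    rw [h0, coeff_zero] at hrDp
    exact ne hD0 hrDp.symm
  have h := uniq hm hNne hN0 (ne hD0) hrDne hrD0 (by rw [hrN0]; exact ne hNp) ode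
    (ode_reflect hp0 hNd hDd ode)
  have h1 := congrArg (fun P => P.coeff p) h
  rw [coeff_mul, mul_comm (reflect p D) D, coeff_mul] at h1
  have e : ∀ P : O[X], ∑ x ∈ Finset.HasAntidiagonal.antidiagonal p, P.coeff x.1 * (reflect p P).coeff x.2 =
      ∑ i ∈ Finset.range (p + 1), P.coeff i ^ 2 := by
    intro P
    rw [Finset.Nat.sum_antidiagonal_eq_sum_range_succ_mk]
    refine Finset.sum_congr rfl fun i hi => ?_
    have hi' := Finset.mem_range.mp hi
    simp only
    rw [coeff_reflect, revAt_le (by omega), show p - (p - i) = i by omega, pow_two]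
  rw [e N, e D, Finset.sum_range_succ (fun i => N.coeff i ^ 2), Finset.sum_range_succ' (fun i => D.coeff i ^ 2)] at h1
  have a1 : S.q ^ 2 ∣ ∑ i ∈ Finset.range p, N.coeff i ^ 2 := by
    refine Finset.dvd_sum fun i hi => pow_dvd_pow_of_dvd (hNi i ?_) 2
    exact (Finset.mem_range.mp hi).ne
  have a2 : S.q ^ 2 ∣ ∑ i ∈ Finset.range p, D.coeff (i + 1) ^ 2 :=
    Finset.dvd_sum fun i _ => pow_dvd_pow_of_dvd (hDi _ (Nat.succ_ne_zero i)) 2
  have : N.coeff p ^ 2 - D.coeff 0 ^ 2 = ∑ i ∈ Finset.range p, D.coeff (i + 1) ^ 2 -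
      ∑ i ∈ Finset.range p, N.coeff i ^ 2 := by linear_combination h1
  rw [this]
  exact dvd_sub a2 a1

end Pool.Agent.H501
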