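import Pool.Agent.H546.Frob

set_option autoImplicit false

/-!
# Uniqueness of the normalised isogeny on a curve `y² = x³ - 2c x² + x`
-/

namespace Pool.Agent.H501

open Polynomial
open Pool.Agent.H546 (wr)

section uniq

variable {R : Type*} [CommRing R]

/-- the right-hand side `x (1 - 2 c x + x²)` -/
noncomputable def gs (c : R) : R[X] := X * (1 - C (2 * c) * X + X ^ 2)

/-- the homogeneous right-hand side -/
noncomputable def hs (c : R) (N D : R[X]) : R[X] := N * D * (D ^ 2 - C (2 * c) * (N * D) + N ^ 2)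

variable [IsDomain R]

theorem first_coeff {c m : R} {N D : R[X]} (hN : N ≠ 0) (hN0 : N.coeff 0 = 0)
    (hm : m ≠ 0) (hD0 : D.coeff 0 ≠ 0) (ode : gs c * wr N D ^ 2 = C m ^ 2 * hs c N D) :
    (wr N D).coeff 0 = m ^ 2 * D.coeff 0 ^ 2 := by
  obtain ⟨N1, rfl⟩ := X_dvd_iff.mpr hN0
  have hN1 : N1 ≠ 0 := by rintro rfl; simp at hN
  have hX : (X : R[X]) ≠ 0 := X_ne_zero
  have ode1 : (1 - C (2 * c) * X + X ^ 2) * wr (X * N1) D ^ 2 =
      C m ^ 2 * (N1 * D * (D ^ 2 - C (2 * c) * (X * N1 * D) + (X * N1) ^ 2)) := by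
    apply mul_left_cancel₀ hX
    rw [gs, hs] at ode
    linear_combination ode
  have hw0 : (wr (X * N1) D).coeff 0 = N1.coeff 0 * D.coeff 0 := by
    simp only [wr, derivative_mul, derivative_X, coeff_sub, mul_coeff_zero, coeff_add, coeff_X_zero, coeff_one_zero]
    ring
  have h0 := congrArg (fun P => P.coeff 0) ode1
  simp only [coeff_zero_eq_eval_zero, eval_mul, eval_add, eval_sub, eval_pow, eval_C, eval_X, eval_one] at h0
  simp only [← coeff_zero_eq_eval_zero] at h0
  rw [hw0] at h0
  have h1 : N1.coeff 0 * (N1.coeff 0 - m ^ 2 * D.coeff 0) = 0 := by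
    have h2 : D.coeff 0 ^ 2 ≠ 0 := pow_ne_zero 2 hD0
    apply mul_left_cancel₀ h2
    linear_combination h0
  have hne : N1.coeff 0 ≠ 0 := by
    intro h00
    have all : ∀ b : ℕ, X ^ (b + 1) ∣ N1 := by
      intro b
      induction b with
      | zero => rw [zero_add, pow_one, X_dvd_iff]; exact h00
      | succ b ih =>
        obtain ⟨ν, hν⟩ := ih
        have e1 : wr (X * N1) D = X ^ (b + 1) * ((b + 2 : R[X]) * ν * D + X * wr ν D) := by
          rw [hν]
          simp only [wr, derivative_mul, derivative_X, derivative_X_pow]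
          push_cast
          simp only [map_add, map_natCast, map_one]
          ring
        have e2 : X ^ (b + 1) * ((1 - C (2 * c) * X + X ^ 2) * ((b + 2 : R[X]) * ν * D + X * wr ν D) ^ 2) =
            C m ^ 2 * (ν * D * (D ^ 2 - C (2 * c) * (X * N1 * D) + (X * N1) ^ 2)) := by
          apply mul_left_cancel₀ (pow_ne_zero (b + 1) hX)
          have := ode1
          rw [e1] at this
          conv_rhs at this => rw [show N1 * D * (D ^ 2 - C (2 * c) * (X * N1 * D) + (X * N1) ^ 2) =
            N1 * (D * (D ^ 2 - C (2 * c) * (X * N1 * D) + (X * N1) ^ 2)) by ring]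
          nth_rewrite 1 [hν] at this
          linear_combination this
        have e3 := congrArg (fun P => P.coeff 0) e2
        simp only [coeff_zero_eq_eval_zero, eval_mul, eval_add, eval_sub, eval_pow, eval_C, eval_X] at e3
        simp only [← coeff_zero_eq_eval_zero] at e3
        have e4 : ν.coeff 0 = 0 := by
          have h5 : m ^ 2 * D.coeff 0 ^ 3 ≠ 0 := mul_ne_zero (pow_ne_zero 2 hm) (pow_ne_zero 3 hD0)
          apply mul_left_cancel₀ h5
          rw [mul_zero]
          rw [zero_pow (Nat.succ_ne_zero b), zero_mul] at e3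
          linear_combination -e3
        obtain ⟨ν', hν'⟩ := X_dvd_iff.mpr e4
        exact ⟨ν', by rw [hν, hν']; ring⟩
    apply hN1
    ext i
    have := X_pow_dvd_iff.mp (all i) i (Nat.lt_succ_self i)
    rw [this, coeff_zero]
  have h3 := (mul_eq_zero.mp h1).resolve_left hne
  rw [hw0]
  linear_combination D.coeff 0 * h3

theorem uniq [CharZero R] {c m : R} (hm : m ≠ 0) {N D P E : R[X]}
    (hN : N ≠ 0) (hN0 : N.coeff 0 = 0) (hD0 : D.coeff 0 ≠ 0)
    (hP : P ≠ 0) (hP0 : P.coeff 0 = 0) (hE0 : E.coeff 0 ≠ 0)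
    (ode : gs c * wr N D ^ 2 = C m ^ 2 * hs c N D)
    (ode' : gs c * wr P E ^ 2 = C m ^ 2 * hs c P E) : N * E = P * D := by
  have w1 := first_coeff hN hN0 hm hD0 ode
  have w2 := first_coeff hP hP0 hm hE0 ode'
  have hX : (X : R[X]) ≠ 0 := X_ne_zero
  set T : R[X] := wr N D * E ^ 2 + wr P E * D ^ 2 with hT
  set Q : R[X] := D ^ 2 * E ^ 2 - C (2 * c) * ((N * E + P * D) * (D * E)) + (N * E) ^ 2 + (N * E) * (P * D) +
    (P * D) ^ 2 with hQ
  have key : gs c * ((derivative (N * E - P * D) * (D * E) - (N * E - P * D) * derivative (D * E)) * T) =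
      C m ^ 2 * ((N * E - P * D) * (D * E) * Q) := by
    have e1 : derivative (N * E - P * D) * (D * E) - (N * E - P * D) * derivative (D * E) =
        wr N D * E ^ 2 - wr P E * D ^ 2 := by
      simp only [wr, derivative_sub, derivative_mul]; ring
    rw [e1, hT, hQ]
    simp only [hs] at ode ode'
    linear_combination E ^ 4 * ode - D ^ 4 * ode'
  have hT0 : T.coeff 0 = 2 * m ^ 2 * (D.coeff 0 * E.coeff 0) ^ 2 := by
    rw [hT]
    simp only [coeff_add, mul_coeff_zero, w1, w2]
    have : ∀ P : R[X], (P ^ 2).coeff 0 = P.coeff 0 ^ 2 := fun P => by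
      rw [coeff_zero_eq_eval_zero, eval_pow, ← coeff_zero_eq_eval_zero]
    rw [this, this]; ring
  have hQ0 : Q.coeff 0 = (D.coeff 0 * E.coeff 0) ^ 2 := by
    rw [hQ]
    simp only [coeff_zero_eq_eval_zero, eval_mul, eval_add, eval_sub, eval_pow, eval_C]
    simp only [← coeff_zero_eq_eval_zero, hN0, hP0]
    ring
  have all : ∀ n : ℕ, X ^ (n + 1) ∣ N * E - P * D := by
    intro n
    induction n with
    | zero =>
      rw [zero_add, pow_one, X_dvd_iff]
      simp [hN0, hP0]
    | succ n ih =>
      obtain ⟨δ, hδ⟩ := ih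
      have e1 : X * (derivative (N * E - P * D) * (D * E) - (N * E - P * D) * derivative (D * E)) =
          X ^ (n + 1) * (((n + 1 : R[X]) * δ + X * derivative δ) * (D * E) - X * (δ * derivative (D * E))) := by
        rw [hδ, derivative_mul, derivative_X_pow]
        push_cast
        simp only [map_add, map_natCast, map_one]
        ring
      have e2 : (1 - C (2 * c) * X + X ^ 2) * ((((n + 1 : R[X]) * δ + X * derivative δ) * (D * E) -
          X * (δ * derivative (D * E))) * T) = C m ^ 2 * (δ * (D * E) * Q) := by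
        apply mul_left_cancel₀ (pow_ne_zero (n + 1) hX)
        have h := key
        rw [gs] at h
        rw [show C m ^ 2 * ((N * E - P * D) * (D * E) * Q) = (N * E - P * D) * (C m ^ 2 * (D * E * Q)) by ring] at h
        nth_rewrite 3 [hδ] at h
        linear_combination h - (1 - C (2 * c) * X + X ^ 2) * T * e1
      have e3 := congrArg (fun P => P.coeff 0) e2
      simp only [coeff_zero_eq_eval_zero, eval_mul, eval_add, eval_sub, eval_pow, eval_C, eval_X, eval_one,
        eval_natCast] at e3
      simp only [← coeff_zero_eq_eval_zero, hT0, hQ0] at e3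
      have e4 : δ.coeff 0 = 0 := by
        have h5 : m ^ 2 * (D.coeff 0 * E.coeff 0) ^ 3 * (2 * n + 1) ≠ 0 := by
          refine mul_ne_zero (mul_ne_zero (pow_ne_zero 2 hm) (pow_ne_zero 3 (mul_ne_zero hD0 hE0))) ?_
          have : ((2 * n + 1 : ℕ) : R) ≠ 0 := by exact_mod_cast (Nat.succ_ne_zero (2 * n))
          push_cast at this
          exact this
        apply mul_left_cancel₀ h5
        rw [mul_zero]
        linear_combination e3
      obtain ⟨δ', hδ'⟩ := X_dvd_iff.mpr e4
      exact ⟨δ', by rw [hδ, hδ']; ring⟩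
  have h0 : N * E - P * D = 0 := by
    ext i
    have := X_pow_dvd_iff.mp (all i) i (Nat.lt_succ_self i)
    rw [this, coeff_zero]
  exact sub_eq_zero.mp h0

end uniq

end Pool.Agent.H501
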